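import Mathlib
import Pool.Agent.Helper23K9.LR.Rel

set_option autoImplicit false

open MeasureTheory Set Filter Topology
open Pool.Agent.Helper23K9.LR

namespace Pool.Agent.U299.LF

/-- `ℝ^ι` with the Manhattan norm -/
abbrev E1 (ι : Type*) [Fintype ι] : Type _ := PiLp 1 (fun _ : ι => ℝ)

section basic
variable {ι : Type*} [Fintype ι]

lemma dist_eq (x y : E1 ι) : dist x y = ∑ i, |x i - y i| := by
  rw [PiLp.dist_eq_of_L1]
  rfl

lemma norm_eq (x : E1 ι) : ‖x‖ = ∑ i, |x i| := by
  rw [PiLp.norm_eq_of_L1]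
  rfl

lemma LK_coord (i : ι) : LK 1 (fun x : E1 ι => x i) := fun x y => by
  rw [dist_eq, one_mul]
  exact (le_abs_self _).trans (Finset.single_le_sum (f := fun i => |x i - y i|) (fun _ _ => abs_nonneg _)
    (Finset.mem_univ i))

variable [DecidableEq ι]

/-- replace the coordinate `i` -/
def upd (x : E1 ι) (i : ι) (u : ℝ) : E1 ι := WithLp.toLp 1 (Function.update x.ofLp i u)

lemma upd_same (x : E1 ι) (i : ι) (u : ℝ) : (upd x i u) i = u := by
  simp [upd]

lemma upd_ne (x : E1 ι) {i j : ι} (h : j ≠ i) (u : ℝ) : (upd x i u) j = x j := by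
  simp [upd, h]

lemma upd_self (x : E1 ι) (i : ι) : upd x i (x i) = x := by
  ext j
  by_cases h : j = i
  · subst h; rw [upd_same]
  · rw [upd_ne x h]

lemma upd_upd (x : E1 ι) (i : ι) (u v : ℝ) : upd (upd x i u) i v = upd x i v := by
  ext j
  by_cases h : j = i
  · subst h; rw [upd_same, upd_same]
  · rw [upd_ne _ h, upd_ne _ h, upd_ne _ h]

omit [DecidableEq ι] in
lemma dist_of_agree {x y : E1 ι} {i : ι} (h : ∀ j, j ≠ i → x j = y j) : dist x y = |x i - y i| := by
  rw [dist_eq]
  apply Finset.sum_eq_single i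
  · intro j _ hj
    rw [h j hj, sub_self, abs_zero]
  · intro h
    exact absurd (Finset.mem_univ i) h

lemma dist_upd (x : E1 ι) (i : ι) (u v : ℝ) : dist (upd x i u) (upd x i v) = |u - v| := by
  rw [dist_of_agree (i := i), upd_same, upd_same]
  intro j hj
  rw [upd_ne _ hj, upd_ne _ hj]

lemma dist_upd_left (x : E1 ι) (i : ι) (u : ℝ) : dist (upd x i u) x = |u - x i| := by
  have := dist_upd x i u (x i)
  rwa [upd_self] at this

end basic

namespace R1

section general
variable {M : Type*} [PseudoMetricSpace M] {S : Rel M}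

lemma sum {κ : Type*} (s : Finset κ) {f g : κ → M → ℝ} (h0 : S.R (fun _ => 0) (fun _ => 0))
    (h : ∀ k ∈ s, S.R (f k) (g k)) :
    S.R (fun x => ∑ k ∈ s, f k x) (fun x => ∑ k ∈ s, g k x) := by
  classical
  induction s using Finset.induction_on with
  | empty => simpa using h0
  | insert a s ha ih =>
    simp only [Finset.sum_insert ha]
    exact Rel.add (h a (Finset.mem_insert_self _ _)) (ih (fun k hk => h k (Finset.mem_insert_of_mem hk)))

lemma R_const [Nonempty M] (a c : ℝ) : S.R (fun _ => a) (fun _ => c) := by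
  obtain ⟨g, hg⟩ := S.tot (fun _ => (0 : ℝ)) ⟨0, fun x y => by simp⟩
  have := Rel.smul hg 0
  exact S.congr this (fun x y => by simp) (fun x y => by simp)

/-- closedness for bounded pointwise convergence -/
lemma closed {f g : ℕ → M → ℝ} {f0 g0 : M → ℝ} {K : ℝ} (h : ∀ n, S.R (f n) (g n)) (hK : ∀ n, LK K (f n))
    (hf : ∀ x y, Tendsto (fun n => f n x - f n y) atTop (𝓝 (f0 x - f0 y)))
    (hg : ∀ x y, Tendsto (fun n => g n x - g n y) atTop (𝓝 (g0 x - g0 y))) : S.R f0 g0 := by
  have h0 : LK K f0 := fun x y => le_of_tendsto' (hf x y) (fun n => hK n x y)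
  obtain ⟨g1, hg1⟩ := S.tot f0 ⟨K, h0⟩
  refine S.congr hg1 (fun _ _ => rfl) (fun x y => ?_)
  exact tendsto_nhds_unique (S.cont f g f0 g1 K h hK hg1 hf x y) (hg x y)

end general

variable {ι : Type*} [Fintype ι] (S : Rel (E1 ι))

/-- the image of the coordinate function `x ↦ x i`, normalised at the origin -/
noncomputable def b (i : ι) (x : E1 ι) : ℝ :=
  Classical.choose (S.tot (fun x : E1 ι => x i) ⟨_, LK_coord i⟩) x -
    Classical.choose (S.tot (fun x : E1 ι => x i) ⟨_, LK_coord i⟩) 0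

lemma R_b (i : ι) : S.R (fun x => x i) (b S i) := by
  refine S.congr (Classical.choose_spec (S.tot (fun x : E1 ι => x i) ⟨_, LK_coord i⟩))
    (fun _ _ => rfl) (fun x y => ?_)
  unfold b
  ring

lemma b_zero (i : ι) : b S i 0 = 0 := by unfold b; ring

lemma LK_b (i : ι) : LK 1 (b S i) := (S.iso (R_b S i) _).1 (LK_coord i)

lemma LK_comb {c : ι → ℝ} (hc : ∀ i, |c i| ≤ 1) : LK 1 (fun x : E1 ι => ∑ i, c i * x i) := fun x y => by
  rw [dist_eq, one_mul, ← Finset.sum_sub_distrib]
  apply Finset.sum_le_sum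
  intro i _
  calc c i * x i - c i * y i = c i * (x i - y i) := by ring
    _ ≤ |c i * (x i - y i)| := le_abs_self _
    _ = |c i| * |x i - y i| := abs_mul _ _
    _ ≤ 1 * |x i - y i| := mul_le_mul_of_nonneg_right (hc i) (abs_nonneg _)
    _ = |x i - y i| := one_mul _

lemma R_comb (s : Finset ι) (c : ι → ℝ) :
    S.R (fun x => ∑ i ∈ s, c i * x i) (fun x => ∑ i ∈ s, c i * b S i x) :=
  sum s (R_const 0 0) (fun k _ => Rel.smul (R_b S k) (c k))

lemma sgn_mul (t : ℝ) : (if 0 ≤ t then (1 : ℝ) else -1) * t = |t| := by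
  split_ifs with h
  · rw [abs_of_nonneg h, one_mul]
  · rw [abs_of_neg (not_le.1 h)]; ring

lemma sgn_abs (t : ℝ) : |(if 0 ≤ t then (1 : ℝ) else -1)| ≤ 1 := by
  split_ifs <;> simp

/-- the map `(b i)` is a contraction -/
lemma contr (x y : E1 ι) : ∑ i, |b S i x - b S i y| ≤ dist x y := by
  set c : ι → ℝ := fun i => if 0 ≤ b S i x - b S i y then (1 : ℝ) else -1 with hc
  have h1 := (S.iso (R_comb S Finset.univ c) 1).1 (LK_comb (c := c) (fun i => sgn_abs _)) x y
  rw [one_mul] at h1
  refine le_trans (le_of_eq ?_) h1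
  rw [← Finset.sum_sub_distrib]
  apply Finset.sum_congr rfl
  intro i _
  rw [← mul_sub, hc]
  exact (sgn_mul _).symm

/-- the map `(b i)` -/
noncomputable def bE (x : E1 ι) : E1 ι := WithLp.toLp 1 (fun i => b S i x)

lemma bE_apply (x : E1 ι) (i : ι) : (bE S x) i = b S i x := rfl

lemma dist_bE (x y : E1 ι) : dist (bE S x) (bE S y) ≤ dist x y := by
  rw [dist_eq]
  exact contr S x y

lemma LK_comp_bE {K : ℝ} (hK : 0 ≤ K) {f : E1 ι → ℝ} (hf : LK K f) : LK K (fun x => f (bE S x)) :=
  fun x y => (hf _ _).trans (mul_le_mul_of_nonneg_left (dist_bE S x y) hK)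

/-- The ridge lemma. -/
lemma ridge {i : ι} {f : E1 ι → ℝ} {φ : ℝ → ℝ} (hφ : LK 1 φ) (hR : S.R f (fun x => φ (b S i x)))
    {x y : E1 ι} (hxy : x i = y i) : f x = f y := by
  classical
  have key : ∀ x y : E1 ι, x i = y i → f x - f y ≤ 0 := by
    intro x y hxy
    set c : ι → ℝ := fun k => if 0 ≤ x k - y k then (1 : ℝ) else -1 with hc
    have h1 := Rel.add (R_comb S (Finset.univ.erase i) c) hR
    have h2 : LK 1 (fun x => ∑ k ∈ Finset.univ.erase i, c k * b S k x + φ (b S i x)) := by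
      intro z w
      have h3 := contr S z w
      rw [one_mul]
      refine le_trans ?_ h3
      rw [← Finset.add_sum_erase _ _ (Finset.mem_univ i)]
      have h4 : φ (b S i z) - φ (b S i w) ≤ |b S i z - b S i w| := by
        have := hφ (b S i z) (b S i w)
        rwa [one_mul, Real.dist_eq] at this
      have h5 : ∑ k ∈ Finset.univ.erase i, c k * b S k z - ∑ k ∈ Finset.univ.erase i, c k * b S k w ≤
          ∑ k ∈ Finset.univ.erase i, |b S k z - b S k w| := by
        rw [← Finset.sum_sub_distrib]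
        apply Finset.sum_le_sum
        intro k _
        calc c k * b S k z - c k * b S k w = c k * (b S k z - b S k w) := by ring
          _ ≤ |c k * (b S k z - b S k w)| := le_abs_self _
          _ = |c k| * |b S k z - b S k w| := abs_mul _ _
          _ ≤ 1 * |b S k z - b S k w| := mul_le_mul_of_nonneg_right (sgn_abs _) (abs_nonneg _)
          _ = |b S k z - b S k w| := one_mul _
      linarith
    have h3 := (S.iso h1 1).2 h2 x y
    beta_reduce at h3
    rw [one_mul, dist_eq, ← Finset.add_sum_erase _ _ (Finset.mem_univ i), hxy, sub_self, abs_zero,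
      zero_add] at h3
    have h4 : ∑ k ∈ Finset.univ.erase i, |x k - y k| =
        ∑ k ∈ Finset.univ.erase i, c k * x k - ∑ k ∈ Finset.univ.erase i, c k * y k := by
      rw [← Finset.sum_sub_distrib]
      apply Finset.sum_congr rfl
      intro k _
      rw [← mul_sub, hc]
      exact (sgn_mul _).symm
    linarith
  have h1 := key x y hxy
  have h2 := key y x hxy.symm
  linarith

/-- the preimages of the ridge functions are ridge functions -/
lemma exists_ridge [DecidableEq ι] (i : ι) {K : ℝ} {φ : ℝ → ℝ} (hφ : LK K φ) :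
    ∃ F : ℝ → ℝ, S.R (fun x => F (x i)) (fun x => φ (b S i x)) := by
  -- reduce to `K = 1`
  have key : ∀ φ : ℝ → ℝ, LK 1 φ → ∃ F : ℝ → ℝ, S.R (fun x => F (x i)) (fun x => φ (b S i x)) := by
    intro φ hφ
    have hL : LK (1 * 1) (fun x => φ (b S i x)) := Rel.LK.comp_real zero_le_one hφ (LK_b S i)
    obtain ⟨f, hf⟩ := S.surj _ ⟨_, hL⟩
    refine ⟨fun u => f (upd 0 i u), S.congr hf (fun x y => ?_) (fun _ _ => rfl)⟩
    have h1 : ∀ z : E1 ι, f z = f (upd 0 i (z i)) := by
      intro z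
      apply ridge S hφ hf
      rw [upd_same]
    rw [h1 x, h1 y]
  have hK : 0 < |K| + 1 := by positivity
  obtain ⟨F, hF⟩ := key (fun u => (|K| + 1)⁻¹ * φ u) (by
    have h1 := (hφ.mono (show K ≤ |K| + 1 by have := le_abs_self K; linarith)).const_mul (|K| + 1)⁻¹
    rwa [abs_of_pos (inv_pos.2 hK), inv_mul_cancel₀ hK.ne'] at h1)
  refine ⟨fun u => (|K| + 1) * F u, ?_⟩
  have h1 := Rel.smul hF (|K| + 1)
  have h2 : (fun x => (|K| + 1) * ((|K| + 1)⁻¹ * φ (b S i x))) = fun x => φ (b S i x) := by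
    funext x
    rw [← mul_assoc, mul_inv_cancel₀ hK.ne', one_mul]
  rwa [h2] at h1

lemma LK_of_ridge [DecidableEq ι] {i : ι} {K : ℝ} {G : ℝ → ℝ} (h : LK K (fun x : E1 ι => G (x i))) :
    LK K G := fun u v => by
  have h1 := h (upd 0 i u) (upd 0 i v)
  beta_reduce at h1
  rw [upd_same, upd_same, dist_upd] at h1
  rwa [Real.dist_eq]

end R1

end Pool.Agent.U299.LF
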