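import Mathlib
import Pool.Agent.Helper23K9.LR.Aff
import Pool.Agent.U299.LF.Basic

set_option autoImplicit false

open MeasureTheory Set Filter Topology
open Pool.Agent.Helper23K9.LR

namespace Pool.Agent.U299.LF

namespace R1

/-- gluing along a level set -/
lemma glue {E : Type*} [NormedAddCommGroup E] [NormedSpace ℝ E] {b h : E → ℝ} {t L : ℝ} (hb : Continuous b)
    (h1 : LK L (fun x => h x + Rel.hinge t (b x)))
    (h2 : LK L (fun x => h x + (b x - Rel.hinge t (b x)))) : LK L (fun x => h x + b x) := by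
  have key : ∀ x y, t ≤ b x → b y ≤ t → |(h x + b x) - (h y + b y)| ≤ L * dist x y := by
    intro x y hx hy
    obtain ⟨z, hz, hzt⟩ : ∃ z ∈ segment ℝ y x, b z = t := by
      have h3 : IsPreconnected (segment ℝ y x) := (convex_segment y x).isPreconnected
      have h4 := h3.intermediate_value (left_mem_segment ℝ y x) (right_mem_segment ℝ y x) hb.continuousOn
      obtain ⟨z, hz, hzt⟩ := h4 ⟨hy, hx⟩
      exact ⟨z, hz, hzt⟩
    have h3 := h1.abs x z
    have h4 := h2.abs z y
    have h5 : dist x z + dist z y = dist x y := by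
      rw [dist_comm x z, dist_comm z y, dist_comm x y, add_comm]
      exact dist_add_dist_of_mem_segment hz
    have e1 : Rel.hinge t (b x) = b x - t := by unfold Rel.hinge; rw [max_eq_left (by linarith)]
    have e2 : Rel.hinge t (b z) = 0 := by unfold Rel.hinge; rw [hzt]; simp
    have e3 : Rel.hinge t (b y) = 0 := by unfold Rel.hinge; rw [max_eq_right (by linarith)]
    rw [e1, e2] at h3
    rw [e2, e3] at h4
    calc |(h x + b x) - (h y + b y)| = |(h x + (b x - t) - (h z + 0)) + (h z + (b z - 0) - (h y + (b y - 0)))| := by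
          rw [hzt]; congr 1; ring
      _ ≤ L * dist x z + L * dist z y := (abs_add_le _ _).trans (add_le_add h3 h4)
      _ = L * dist x y := by rw [← h5]; ring
  intro x y
  beta_reduce
  rcases le_total t (b x) with hx | hx <;> rcases le_total t (b y) with hy | hy
  · have h3 := h1 x y
    beta_reduce at h3
    unfold Rel.hinge at h3
    rw [max_eq_left (by linarith), max_eq_left (by linarith)] at h3
    linarith
  · exact (le_abs_self _).trans (key x y hx hy)
  · have := key y x hy hx
    rw [abs_sub_comm, dist_comm] at this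
    exact (le_abs_self _).trans this
  · have h3 := h2 x y
    beta_reduce at h3
    unfold Rel.hinge at h3
    rw [max_eq_right (by linarith), max_eq_right (by linarith)] at h3
    linarith

variable {ι : Type*} [Fintype ι] [DecidableEq ι] (S : Rel (E1 ι))

omit [DecidableEq ι] in
lemma LK_comp_coord (i : ι) {K : ℝ} (hK : 0 ≤ K) {φ : ℝ → ℝ} (hφ : LK K φ) :
    LK K (fun x : E1 ι => φ (x i)) := by
  have := Rel.LK.comp_real hK hφ (LK_coord i)
  rwa [mul_one] at this

omit [DecidableEq ι] in
lemma LK_comp_b (i : ι) {K : ℝ} (hK : 0 ≤ K) {φ : ℝ → ℝ} (hφ : LK K φ) :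
    LK K (fun x : E1 ι => φ (b S i x)) := by
  have := Rel.LK.comp_real hK hφ (LK_b S i)
  rwa [mul_one] at this

lemma slope_transfer {i : ι} {G φ : ℝ → ℝ}
    (h : S.R (fun x => G (x i)) (fun x => φ (b S i x))) (hφ : Slope φ) : Slope G := by
  apply slope_of_half
  apply LK_of_ridge (i := i)
  have h1 := S.lin h (R_b S i) 1 (-(1 / 2))
  have h2 : LK (1 / 2) (fun x => φ (b S i x) - 1 / 2 * b S i x) := by
    have := Rel.LK.comp_real (by norm_num : (0 : ℝ) ≤ 1 / 2) (half_of_slope hφ) (LK_b S i)
    rwa [mul_one] at this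
  have h3 : (fun x => 1 * φ (b S i x) + -(1 / 2) * b S i x) = fun x => φ (b S i x) - 1 / 2 * b S i x := by
    funext x; ring
  have h4 : (fun x : E1 ι => 1 * G (x i) + -(1 / 2) * x i) =
      fun x => G (x i) - 1 / 2 * x i := by
    funext x; ring
  rw [h3, h4] at h1
  exact (S.iso h1 _).2 h2

/-- the slopes are `0` or `1` -/
lemma slope01 {i : ι} {t : ℝ} {F : ℝ → ℝ}
    (hF : S.R (fun x => F (x i)) (fun x => Rel.hinge t (b S i x))) :
    ∀ᵐ u, deriv F u = 0 ∨ deriv F u = 1 := by
  apply deriv_zero_or_one (slope_transfer S hF (slope_hinge t))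
  intro H L hH h1 h2
  obtain ⟨K, hK⟩ := hH
  have hK0 : LK |K| (fun x : E1 ι => H (x i)) := LK_comp_coord i (abs_nonneg K) (hK.mono (le_abs_self K))
  obtain ⟨h, hh⟩ := S.tot _ ⟨_, hK0⟩
  have hL : 0 ≤ L := by
    have := h1 1 0
    have h3 := h1 0 1
    rw [Real.dist_eq] at this h3
    norm_num at this h3
    linarith
  have g1 : LK L (fun x => h x + Rel.hinge t (b S i x)) :=
    (S.iso (Rel.add hh hF) L).1 (LK_comp_coord i hL h1)
  have g2 : LK L (fun x => h x + (b S i x - Rel.hinge t (b S i x))) := by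
    refine (S.iso (Rel.add hh (Rel.sub (R_b S i) hF)) L).1 ?_
    have := LK_comp_coord i hL h2
    have e : (fun x : E1 ι => H (x i) + (x i - F (x i))) =
      fun x => H (x i) + x i - F (x i) := by funext x; ring
    rwa [e]
  have g3 := glue (LK_b S i).continuous g1 g2
  exact LK_of_ridge (i := i) ((S.iso (Rel.add hh (R_b S i)) L).2 g3)

/-- Local data for a coordinate. -/
structure Data (i : ι) where
  F : ℝ → ℝ → ℝ
  hF : ∀ t, S.R (fun x => F t (x i)) (fun x => Rel.hinge t (b S i x))
  B : ℝ → ℝ
  D : Set ℝ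
  hD : ∀ᵐ u, u ∈ D
  one : ∀ u ∈ D, ∀ q : ℚ, (q : ℝ) < B u → HasDerivAt (F q) 1 u
  zero : ∀ u ∈ D, ∀ q : ℚ, B u < (q : ℝ) → HasDerivAt (F q) 0 u

theorem exists_data (i : ι) : Nonempty (Data S i) := by
  choose F hF using fun t => exists_ridge S i (Rel.LK_hinge_real t)
  have hS : ∀ t, Slope (F t) := fun t => slope_transfer S (hF t) (slope_hinge t)
  have hSd : ∀ s t, s ≤ t → Slope (fun u => F s u - F t u) := fun s t hst =>
    slope_transfer S (G := fun u => F s u - F t u) (φ := fun u => Rel.hinge s u - Rel.hinge t u)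
      (Rel.sub (hF s) (hF t)) (slope_clip hst)
  have h01 : ∀ t, ∀ᵐ u, deriv (F t) u = 0 ∨ deriv (F t) u = 1 := fun t => slope01 S (hF t)
  have hin : ∀ w : ℝ, (upd (0 : E1 ι) i w) i = w := fun w => upd_same _ _ _
  -- limits
  have lim1 : ∀ u v, Tendsto (fun n : ℕ => F (-(n : ℝ)) u - F (-(n : ℝ)) v) atTop (𝓝 (u - v)) := by
    intro u v
    have h1 := S.cont' (fun n x => F (-(n : ℝ)) (x i)) (fun n x => Rel.hinge (-(n : ℝ)) (b S i x))
      (fun x => x i) (b S i) 1 (fun n => hF _) (fun n => LK_comp_coord i zero_le_one (hS (-(n : ℝ))).LK)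
        (R_b S i) (fun x y => by
          apply tendsto_const_nhds.congr'
          obtain ⟨N, hN⟩ := exists_nat_ge (max |b S i x| |b S i y|)
          filter_upwards [eventually_ge_atTop N] with n hn
          have hn' : (N : ℝ) ≤ n := by exact_mod_cast hn
          have e1 : -(n : ℝ) ≤ b S i x := by
            have := (abs_le.1 ((le_max_left _ _).trans (hN.trans hn'))).1
            exact this
          have e2 : -(n : ℝ) ≤ b S i y := by
            have := (abs_le.1 ((le_max_right _ _).trans (hN.trans hn'))).1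
            exact this
          unfold Rel.hinge
          rw [max_eq_left (by linarith), max_eq_left (by linarith)]
          ring) (upd 0 i u) (upd 0 i v)
    simp only [hin] at h1
    exact h1
  have lim2 : ∀ u v, Tendsto (fun n : ℕ => F (n : ℝ) u - F (n : ℝ) v) atTop (𝓝 0) := by
    intro u v
    have hR0 : S.R (fun _ => (0 : ℝ)) (fun _ => (0 : ℝ)) := R_const 0 0
    have h1 := S.cont' (fun n x => F (n : ℝ) (x i)) (fun n x => Rel.hinge (n : ℝ) (b S i x))
      (fun _ => 0) (fun _ => 0) 1 (fun n => hF _) (fun n => LK_comp_coord i zero_le_one (hS (n : ℝ)).LK)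
        hR0 (fun x y => by
          apply tendsto_const_nhds.congr'
          obtain ⟨N, hN⟩ := exists_nat_ge (max |b S i x| |b S i y|)
          filter_upwards [eventually_ge_atTop N] with n hn
          have hn' : (N : ℝ) ≤ n := by exact_mod_cast hn
          have e1 : b S i x ≤ n := (abs_le.1 ((le_max_left _ _).trans (hN.trans hn'))).2
          have e2 : b S i y ≤ n := (abs_le.1 ((le_max_right _ _).trans (hN.trans hn'))).2
          unfold Rel.hinge
          rw [max_eq_right (by linarith), max_eq_right (by linarith)]) (upd 0 i u) (upd 0 i v)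
    simp only [hin, sub_zero] at h1
    exact h1
  have hone := Rel.ae_exists_one (F := fun n : ℕ => F (-(n : ℝ))) (fun n => hS _) (fun n => h01 _) lim1
  have hzero : ∀ᵐ u, ∃ n : ℕ, deriv (F (n : ℝ)) u = 0 := by
    have h1 := Rel.ae_exists_one (F := fun (n : ℕ) u => u - F (n : ℝ) u)
      (fun n => fun u v huv => by
        have := hS (n : ℝ) u v huv
        beta_reduce
        constructor <;> linarith [this.1, this.2])
      (fun n => by
        filter_upwards [h01 (n : ℝ), (hS (n : ℝ)).ae_hasDerivAt] with u h1 h2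
        have h3 : HasDerivAt (fun u => u - F (n : ℝ) u) (1 - deriv (F (n : ℝ)) u) u :=
          (hasDerivAt_id u).sub h2
        rw [h3.deriv]
        rcases h1 with h1 | h1
        · right; rw [h1]; ring
        · left; rw [h1]; ring)
      (fun u v => by
        have := (tendsto_const_nhds (x := u - v)).sub (lim2 u v)
        rw [sub_zero] at this
        refine this.congr (fun n => ?_)
        ring)
    have h2 : ∀ᵐ u, ∀ n : ℕ, HasDerivAt (F (n : ℝ)) (deriv (F (n : ℝ)) u) u := by
      rw [ae_all_iff]; intro n; exact (hS (n : ℝ)).ae_hasDerivAt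
    filter_upwards [h1, h2] with u h3 h4
    obtain ⟨n, hn⟩ := h3
    refine ⟨n, ?_⟩
    have h5 : HasDerivAt (fun u => u - F (n : ℝ) u) (1 - deriv (F (n : ℝ)) u) u :=
      (hasDerivAt_id u).sub (h4 n)
    rw [h5.deriv] at hn
    linarith
  -- the good set
  have hgood : ∀ᵐ u, (∀ q : ℚ, HasDerivAt (F q) (deriv (F q) u) u ∧
      (deriv (F q) u = 0 ∨ deriv (F q) u = 1)) ∧ (∃ n : ℕ, deriv (F (-(n : ℝ))) u = 1) ∧
      ∃ n : ℕ, deriv (F (n : ℝ)) u = 0 := by
    have h1 : ∀ᵐ u, ∀ q : ℚ, HasDerivAt (F q) (deriv (F q) u) u ∧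
      (deriv (F q) u = 0 ∨ deriv (F q) u = 1) := by
      rw [ae_all_iff]; intro q; exact ((hS q).ae_hasDerivAt).and (h01 q)
    exact h1.and (hone.and hzero)
  set D : Set ℝ := {u | (∀ q : ℚ, HasDerivAt (F q) (deriv (F q) u) u ∧
      (deriv (F q) u = 0 ∨ deriv (F q) u = 1)) ∧ (∃ n : ℕ, deriv (F (-(n : ℝ))) u = 1) ∧
      ∃ n : ℕ, deriv (F (n : ℝ)) u = 0} with hDdef
  have hDg : ∀ u ∈ D, (∀ q : ℚ, HasDerivAt (F q) (deriv (F q) u) u ∧
      (deriv (F q) u = 0 ∨ deriv (F q) u = 1)) ∧ (∃ n : ℕ, deriv (F (-(n : ℝ))) u = 1) ∧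
      ∃ n : ℕ, deriv (F (n : ℝ)) u = 0 := fun u hu => hu
  have hDn : ∀ᵐ u, u ∈ D := hgood
  -- monotonicity
  have hmono : ∀ u ∈ D, ∀ q r : ℚ, q ≤ r → deriv (F r) u ≤ deriv (F q) u := by
    intro u hu q r hqr
    have h1 := ((hDg u hu).1 q).1
    have h2 := ((hDg u hu).1 r).1
    have h3 : HasDerivAt (fun u => F q u - F r u) (deriv (F q) u - deriv (F r) u) u := h1.sub h2
    have h4 := (hSd q r (by exact_mod_cast hqr)).deriv_nonneg u
    rw [h3.deriv] at h4
    linarith
  set A : ℝ → Set ℝ := fun u => {t | ∃ q : ℚ, (q : ℝ) = t ∧ deriv (F q) u = 1} with hA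
  have hAne : ∀ u ∈ D, (A u).Nonempty := by
    intro u hu
    obtain ⟨n, hn⟩ := (hDg u hu).2.1
    refine ⟨-(n : ℝ), -(n : ℚ), by push_cast; rfl, ?_⟩
    push_cast
    exact hn
  have hAbd : ∀ u ∈ D, BddAbove (A u) := by
    intro u hu
    obtain ⟨n, hn⟩ := (hDg u hu).2.2
    refine ⟨n, ?_⟩
    rintro t ⟨q, rfl, hq⟩
    by_contra hcon
    push Not at hcon
    have h1 := hmono u hu (n : ℚ) q (by
      have : ((n : ℚ) : ℝ) ≤ (q : ℝ) := by push_cast; exact hcon.le
      exact_mod_cast this)
    push_cast at h1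
    rw [hq, hn] at h1
    linarith
  refine ⟨⟨F, hF, fun u => sSup (A u), D, hDn, ?_, ?_⟩⟩
  · intro u hu q hq
    beta_reduce at hq
    obtain ⟨t, ⟨r, rfl, hr⟩, hqr⟩ := exists_lt_of_lt_csSup (hAne u hu) hq
    have h1 := hmono u hu q r (by exact_mod_cast hqr.le)
    have h2 := (hDg u hu).1 q
    rcases h2.2 with h3 | h3
    · rw [h3, hr] at h1; linarith
    · rw [← h3]; exact h2.1
  · intro u hu q hq
    beta_reduce at hq
    have h2 := (hDg u hu).1 q
    rcases h2.2 with h3 | h3
    · rw [← h3]; exact h2.1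
    · exfalso
      have := le_csSup (hAbd u hu) (show (q : ℝ) ∈ A u from ⟨q, rfl, h3⟩)
      linarith

variable {S}

lemma Data.slope {i : ι} (D : Data S i) (t : ℝ) : Slope (D.F t) :=
  slope_transfer S (D.hF t) (slope_hinge t)

lemma kappa_ne_zero {i : ι} (D : Data S i) {c : ℝ} (h : ∀ᵐ u, D.B u = c) : False := by
  have hin : ∀ w : ℝ, (upd (0 : E1 ι) i w) i = w := fun w => upd_same _ _ _
  -- `b i` is not constant
  obtain ⟨x, y, hxy⟩ : ∃ x y, b S i y < b S i x := by
    by_contra hcon
    push Not at hcon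
    have h1 : LK 0 (b S i) := fun x y => by
      have := hcon x y
      linarith
    have h2 := (S.iso (R_b S i) 0).2 h1 (upd 0 i 1) (upd 0 i 0)
    beta_reduce at h2
    rw [hin, hin] at h2
    linarith
  -- a rational different from `c`
  obtain ⟨t, ht1, ht2, ht3⟩ : ∃ t : ℚ, b S i y < t ∧ (t : ℝ) < b S i x ∧ (t : ℝ) ≠ c := by
    obtain ⟨t, ht1, ht2⟩ := exists_rat_btwn hxy
    obtain ⟨t', ht1', ht2'⟩ := exists_rat_btwn ht1
    by_cases hc : (t : ℝ) = c
    · exact ⟨t', ht1', ht2'.trans ht2, by rw [← hc]; exact ht2'.ne⟩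
    · exact ⟨t, ht1, ht2, hc⟩
  have hS := D.slope t
  rcases lt_or_gt_of_ne ht3 with h3 | h3
  · -- `F t` is the identity up to a constant
    have e1 : ∀ u v, (fun u => D.F t u - u) u = (fun u => D.F t u - u) v := by
      apply const_of_deriv_zero (K := 2)
      · intro u v
        have := hS.LK.abs u v
        rw [Real.dist_eq] at this ⊢
        have h4 := le_abs_self (D.F t u - D.F t v)
        have h5 := neg_abs_le (u - v)
        linarith
      · filter_upwards [h, D.hD] with u hu huD
        have := (D.one u huD t (by rw [hu]; exact h3)).sub (hasDerivAt_id u)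
        rw [sub_self] at this
        exact this
    have h4 : S.R (fun x => x i) (fun x => Rel.hinge t (b S i x)) :=
      S.congr (D.hF t) (fun x y => by
        have := e1 (x i) (y i)
        beta_reduce at this
        linarith) (fun _ _ => rfl)
    have h5 := Rel.uniq h4 (R_b S i) x y
    beta_reduce at h5
    rw [Rel.hinge_gt ht2, Rel.hinge_lt ht1] at h5
    linarith
  · have e1 : ∀ u v, D.F t u = D.F t v := by
      apply const_of_deriv_zero hS.LK
      filter_upwards [h, D.hD] with u hu huD
      exact D.zero u huD t (by rw [hu]; exact h3)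
    have h4 : S.R (fun _ => 0) (fun x => Rel.hinge t (b S i x)) :=
      S.congr (D.hF t) (fun x y => by
        have := e1 (x i) (y i)
        linarith) (fun _ _ => rfl)
    have h5 := Rel.uniq h4 (R_const 0 0) x y
    beta_reduce at h5
    rw [Rel.hinge_gt ht2, Rel.hinge_lt ht1] at h5
    linarith

lemma hin_of_data {i : ι} (D : Data S i) {κ c : ℝ} (hκ : κ ≠ 0)
    (h : ∀ᵐ u, D.B u = κ * u + c) (t : ℝ) :
    S.R (fun y => Rel.hinge t (κ * y i + c)) (fun y => κ * Rel.hinge t (b S i y)) := by
  have key : ∀ t : ℚ, S.R (fun y => Rel.hinge t (κ * y i + c)) (fun y => κ * Rel.hinge t (b S i y)) := by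
    intro t
    have hS := D.slope t
    have e1 : ∀ u v, (fun u => κ * D.F t u - Rel.hinge t (κ * u + c)) u =
        (fun u => κ * D.F t u - Rel.hinge t (κ * u + c)) v := by
      have k1 : LK (|κ| * 1) (fun u => κ * D.F t u) := hS.LK.const_mul κ
      have k2 : LK (1 * (|κ| * 1)) (fun u : ℝ => Rel.hinge t (κ * u + c)) := by
        apply Rel.LK.comp_real zero_le_one (Rel.LK_hinge_real t)
        apply LK.add_const
        apply LK.const_mul
        intro u v
        rw [Real.dist_eq, one_mul]
        exact le_abs_self _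
      have k3 := k1.add k2.neg
      apply const_of_deriv_zero (K := |κ| * 1 + 1 * (|κ| * 1))
      · intro u v
        have := k3 u v
        beta_reduce at this ⊢
        linarith
      · have h0 : ∀ᵐ u : ℝ, κ * u + c ≠ t := by
          have : {u : ℝ | ¬ (κ * u + c ≠ t)} ⊆ {(t - c) / κ} := by
            intro u hu
            have hu' : κ * u + c = t := by
              by_contra hcon
              exact hu hcon
            rw [mem_singleton_iff]
            field_simp
            linarith
          rw [ae_iff]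
          exact measure_mono_null this (by simp)
        filter_upwards [h, D.hD, h0] with u hu huD hu0
        have d0 : HasDerivAt (fun u => κ * u + c) κ u := by
          have := ((hasDerivAt_id u).const_mul κ).add_const c
          rwa [mul_one] at this
        rcases lt_or_gt_of_ne hu0 with h3 | h3
        · have d1 := (D.zero u huD t (by rw [hu]; exact h3)).const_mul κ
          have d2 : HasDerivAt (fun u => Rel.hinge t (κ * u + c)) 0 u := by
            apply (hasDerivAt_const u (0 : ℝ)).congr_of_eventuallyEq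
            filter_upwards [d0.continuousAt.eventually (gt_mem_nhds h3)] with v hv
            exact Rel.hinge_lt hv
          have d3 := d1.sub d2
          rw [mul_zero, sub_zero] at d3
          exact d3
        · have d1 := (D.one u huD t (by rw [hu]; exact h3)).const_mul κ
          have d2 : HasDerivAt (fun u => Rel.hinge t (κ * u + c)) κ u := by
            apply (d0.sub_const (t : ℝ)).congr_of_eventuallyEq
            filter_upwards [d0.continuousAt.eventually (lt_mem_nhds h3)] with v hv
            exact Rel.hinge_gt hv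
          have d3 := d1.sub d2
          rw [mul_one, sub_self] at d3
          exact d3
    refine S.congr (Rel.smul (D.hF t) κ) (fun x y => ?_) (fun _ _ => rfl)
    have := e1 (x i) (y i)
    beta_reduce at this
    linarith
  obtain ⟨q, _, hq⟩ : ∃ q : ℕ → ℚ, (∀ n, (q n : ℝ) < t) ∧ Tendsto (fun n => (q n : ℝ)) atTop (𝓝 t) := by
    choose q hq1 hq2 using fun n : ℕ => exists_rat_btwn (show t - 1 / ((n : ℝ) + 1) < t by
      have : 0 < 1 / ((n : ℝ) + 1) := by positivity
      linarith)
    refine ⟨q, hq2, ?_⟩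
    have h1 : Tendsto (fun n : ℕ => t - 1 / ((n : ℝ) + 1)) atTop (𝓝 (t - 0)) :=
      tendsto_const_nhds.sub tendsto_one_div_add_atTop_nhds_zero_nat
    rw [sub_zero] at h1
    exact tendsto_of_tendsto_of_tendsto_of_le_of_le h1 tendsto_const_nhds (fun n => (hq1 n).le)
      (fun n => (hq2 n).le)
  refine closed (K := 1 * (|κ| * 1)) (fun n => key (q n)) (fun n => ?_) (fun x y => ?_) (fun x y => ?_)
  · apply Rel.LK.comp_real zero_le_one (Rel.LK_hinge_real _)
    exact ((LK_coord i).const_mul κ).add_const c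
  · exact (Rel.hinge_tendsto hq _).sub (Rel.hinge_tendsto hq _)
  · exact ((Rel.hinge_tendsto hq _).const_mul κ).sub ((Rel.hinge_tendsto hq _).const_mul κ)

end R1

end Pool.Agent.U299.LF
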