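import Mathlib
import Pool.Agent.Helper23K9.LR.Fun
import Pool.Agent.U299.LF.Data

set_option autoImplicit false

open MeasureTheory Set Filter Topology
open Pool.Agent.Helper23K9.LR

namespace Pool.Agent.U299.LF

section normed
variable {E : Type*} [NormedAddCommGroup E] [NormedSpace ℝ E]

/-- disjoint supports -/
lemma LK_add_disjoint {f g : E → ℝ}
    (hf : LK 1 f) (hg : LK 1 g) (h : ∀ x, f x = 0 ∨ g x = 0) : LK 1 (fun x => f x + g x) := by
  refine LK_of_local (h := fun x => f x + g x) (hf.continuous.add hg.continuous) ?_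
  intro x
  by_cases h1 : f x = 0
  · by_cases h2 : g x = 0
    · refine Filter.Eventually.of_forall (fun y => ?_)
      rcases h y with h3 | h3
      · have := hg.abs y x
        rw [h1, h3, zero_add, zero_add]
        exact this
      · have := hf.abs y x
        rw [h2, h3, add_zero, add_zero]
        exact this
    · filter_upwards [hg.continuous.continuousAt.eventually_ne h2] with y hy
      have h3 : f y = 0 := (h y).resolve_right hy
      have := hg.abs y x
      rw [h1, h3, zero_add, zero_add]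
      exact this
  · have h2 : g x = 0 := (h x).resolve_left h1
    filter_upwards [hf.continuous.continuousAt.eventually_ne h1] with y hy
    have h3 : g y = 0 := (h y).resolve_left hy
    have := hf.abs y x
    rw [h2, h3, add_zero, add_zero]
    exact this

lemma clip_of_le {l r u : ℝ} (hlr : l ≤ r) (h : u ≤ l) : clip l r u = 0 := by
  unfold clip Rel.hinge
  rw [max_eq_right (by linarith), max_eq_right (by linarith), sub_zero]

lemma clip_of_ge {l r u : ℝ} (hlr : l ≤ r) (h : r ≤ u) : clip l r u = r - l := by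
  unfold clip Rel.hinge
  rw [max_eq_left (by linarith), max_eq_left (by linarith)]
  ring

lemma clip_of_mem {l r u : ℝ} (h1 : l ≤ u) (h2 : u ≤ r) : clip l r u = u - l := by
  unfold clip Rel.hinge
  rw [max_eq_left (by linarith), max_eq_right (by linarith)]
  ring

lemma exists_level {b : E → ℝ} (hb : Continuous b) {x y : E} {t : ℝ} (hy : b y ≤ t) (hx : t ≤ b x) :
    ∃ z, b z = t ∧ dist y z + dist z x = dist y x := by
  have h3 : IsPreconnected (segment ℝ y x) := (convex_segment y x).isPreconnected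
  have h4 := h3.intermediate_value (left_mem_segment ℝ y x) (right_mem_segment ℝ y x) hb.continuousOn
  obtain ⟨z, hz, hzt⟩ := h4 ⟨hy, hx⟩
  exact ⟨z, hzt, dist_add_dist_of_mem_segment hz⟩

lemma LK_clip_add {b g : E → ℝ} (hb : LK 1 b) (hg : LK 1 g) {l r : ℝ} (hlr : l ≤ r)
    (h0 : ∀ x, b x ∈ Icc l r → g x = 0) : LK 1 (fun x => clip l r (b x) + g x) := by
  have hc : LK 1 (fun x => clip l r (b x)) := by
    have := Rel.LK.comp_real zero_le_one (slope_clip' hlr).LK hb
    rwa [mul_one] at this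
  refine LK_of_local (h := fun x => clip l r (b x) + g x) (hc.continuous.add hg.continuous) ?_
  intro x
  by_cases hx : b x ∈ Icc l r
  · refine Filter.Eventually.of_forall (fun y => ?_)
    by_cases hy : b y ∈ Icc l r
    · rw [h0 x hx, h0 y hy, add_zero, add_zero]
      exact hc.abs y x
    · have key : ∀ z, b z ∈ Icc l r → clip l r (b y) = clip l r (b z) → dist y z + dist z x = dist y x →
          |clip l r (b y) + g y - (clip l r (b x) + g x)| ≤ 1 * dist y x := by
        intro z hz1 hz2 hz3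
        rw [hz2, h0 x hx, ← hz3]
        have e1 := hc.abs z x
        have e2 := hg.abs y z
        rw [h0 z hz1] at e2
        beta_reduce at e1
        calc |clip l r (b z) + g y - (clip l r (b x) + 0)| = |(g y - 0) + (clip l r (b z) - clip l r (b x))| := by
              congr 1; ring
          _ ≤ 1 * dist y z + 1 * dist z x := (abs_add_le _ _).trans (add_le_add e2 e1)
          _ = 1 * (dist y z + dist z x) := by ring
      rcases lt_or_ge (b y) l with h1 | h1
      · obtain ⟨z, hz1, hz2⟩ := exists_level hb.continuous h1.le hx.1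
        refine key z ?_ ?_ hz2
        · rw [hz1]; exact ⟨le_rfl, hlr⟩
        · rw [clip_of_le hlr h1.le, clip_of_le hlr hz1.le]
      · have h2 : r < b y := by
          by_contra hcon
          push Not at hcon
          exact hy ⟨h1, hcon⟩
        obtain ⟨z, hz1, hz2⟩ := exists_level hb.continuous hx.2 h2.le
        refine key z ?_ ?_ ?_
        · rw [hz1]; exact ⟨hlr, le_rfl⟩
        · rw [clip_of_ge hlr h2.le, clip_of_ge hlr hz1.ge]
        · rw [dist_comm x z, dist_comm z y, dist_comm x y] at hz2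
          linarith
  · have m3 : b x < l ∨ r < b x := by
      by_contra hcon
      push Not at hcon
      exact hx hcon
    filter_upwards [hb.continuous.continuousAt.eventually (clip_const hlr m3)] with y hy
    rw [hy]
    have := hg.abs y x
    have e : clip l r (b x) + g y - (clip l r (b x) + g x) = g y - g x := by ring
    rw [e]
    exact this

end normed

lemma abs_add_abs_le {a c d : ℝ} (h1 : |a + c| ≤ d) (h2 : |a - c| ≤ d) : |a| + |c| ≤ d := by
  rw [abs_le] at h1 h2
  rcases abs_cases a with ⟨h3, _⟩ | ⟨h3, _⟩ <;> rcases abs_cases c with ⟨h4, _⟩ | ⟨h4, _⟩ <;>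
    rw [h3, h4] <;> linarith [h1.1, h1.2, h2.1, h2.2]

lemma LK_dist {M : Type*} [PseudoMetricSpace M] (w : M) : LK 1 (fun z : M => dist z w) := fun x y => by
  have := dist_triangle x y w
  linarith

lemma LK_zero {M : Type*} [PseudoMetricSpace M] : LK 1 (fun _ : M => (0 : ℝ)) := fun x y => by simp

namespace R1

variable {ι : Type*} [Fintype ι] {S : Rel (E1 ι)}

lemma coord_pair {i : ι} {A : ℝ → ℝ} {β q g : E1 ι → ℝ}
    (h1 : S.R (fun x => A (x i)) β) (h2 : S.R q g) (h3 : LK 1 (fun x => β x + g x))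
    (h4 : LK 1 (fun x => β x - g x)) {x y : E1 ι} (hxy : ∀ j, j ≠ i → x j = y j) :
    |A (x i) - A (y i)| + |q x - q y| ≤ |x i - y i| := by
  have e1 := ((S.iso (Rel.add h1 h2) 1).2 h3).abs x y
  have e2 := ((S.iso (Rel.sub h1 h2) 1).2 h4).abs x y
  rw [one_mul, dist_of_agree hxy] at e1 e2
  apply abs_add_abs_le
  · convert e1 using 2
    ring
  · convert e2 using 2
    ring

/-- compactness -/
lemma small_image (S : Rel (E1 ι)) (R ω : ℝ) (hω : 0 < ω) : ∃ r₀ : ℝ, 0 < r₀ ∧ ∀ f g : E1 ι → ℝ,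
    S.R f g → LK 1 f → (∀ x, |f x| ≤ r₀) → ∀ z, ‖z‖ ≤ R → |g z - g 0| ≤ ω := by
  by_contra hcon
  push Not at hcon
  have : ∀ n : ℕ, ∃ f g z, S.R f g ∧ LK 1 f ∧ (∀ x, |f x| ≤ 1 / ((n : ℝ) + 1)) ∧ ‖z‖ ≤ R ∧ ω < |g z - g 0| := by
    intro n
    obtain ⟨f, g, h1, h2, h3, z, h4, h5⟩ := hcon (1 / ((n : ℝ) + 1)) (by positivity)
    exact ⟨f, g, z, h1, h2, h3, h4, h5⟩
  choose f g z h1 h2 h3 h4 h5 using this
  obtain ⟨w, -, φ, hφ, hw⟩ := (isCompact_closedBall (0 : E1 ι) R).tendsto_subseq (x := z)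
    (fun n => by simpa using h4 n)
  have h6 := S.cont f g (fun _ => 0) (fun _ => 0) 1 h1 h2 (R_const 0 0) (fun x y => by
    rw [sub_zero]
    have e0 : Tendsto (fun n : ℕ => 2 * (1 / ((n : ℝ) + 1))) atTop (𝓝 (2 * 0)) :=
      tendsto_one_div_add_atTop_nhds_zero_nat.const_mul 2
    rw [mul_zero] at e0
    apply squeeze_zero_norm _ e0
    intro n
    rw [Real.norm_eq_abs]
    have e1 := h3 n x
    have e2 := h3 n y
    have e3 := abs_sub (f n x) (f n y)
    linarith) w 0
  rw [sub_zero] at h6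
  have h7 := h6.comp hφ.tendsto_atTop
  have h8 : Tendsto (fun n => dist (z (φ n)) w + |g (φ n) w - g (φ n) 0|) atTop (𝓝 (0 + |0|)) := by
    apply Tendsto.add
    · exact tendsto_iff_dist_tendsto_zero.1 hw
    · exact h7.abs
  rw [abs_zero, add_zero] at h8
  have h9 : ω ≤ 0 := by
    apply ge_of_tendsto' h8
    intro n
    have e1 := h5 (φ n)
    have e2 := ((S.iso (h1 (φ n)) 1).1 (h2 (φ n))).abs (z (φ n)) w
    rw [one_mul] at e2
    have e3 := abs_sub_le (g (φ n) (z (φ n))) (g (φ n) w) (g (φ n) 0)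
    linarith
  linarith

variable [DecidableEq ι]

/-- the local estimate -/
lemma local_estimate {i : ι} {l r δ R u : ℝ} (hlr : l ≤ r) (hδ : 0 < δ) (hR0 : 0 ≤ R) {A : ℝ → ℝ}
    (hA : S.R (fun x => A (x i)) (fun x => clip l r (b S i x))) (hAd : HasDerivAt A 1 u)
    {q w : E1 ι → ℝ} (hR : S.R q w) (hw : LK 1 w) (hw0 : ∀ z, b S i z ∈ Icc (l - δ) (r + δ) → w z = 0)
    (hwR : ∀ z, R < ‖z‖ → w z = 0) {η : ℝ} (hη : 0 < η) :
    ∃ ρ₀ : ℝ, 0 < ρ₀ ∧ ∀ x v : E1 ι, x i = u → v i = 0 → ‖v‖ < ρ₀ → |q (x + v) - q x| ≤ 2 * η * ‖v‖ := by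
  obtain ⟨ρ₁, hρ₁, hA1⟩ : ∃ ρ₁ : ℝ, 0 < ρ₁ ∧ ∀ t : ℝ, 0 < t → t < ρ₁ → (1 - η) * t ≤ A (u + t) - A u := by
    have h1 := hasDerivAt_iff_isLittleO_nhds_zero.1 hAd
    have h2 := h1.def hη
    obtain ⟨ρ₁, hρ₁, h3⟩ := Metric.eventually_nhds_iff.1 h2
    refine ⟨ρ₁, hρ₁, fun t ht0 ht1 => ?_⟩
    have h4 := h3 (y := t) (by rw [Real.dist_eq, sub_zero, abs_of_pos ht0]; exact ht1)
    rw [Real.norm_eq_abs, Real.norm_eq_abs, abs_of_pos ht0, smul_eq_mul, mul_one] at h4
    have h5 := (abs_le.1 h4).1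
    linarith
  obtain ⟨r₀, hr₀, hsm⟩ := small_image S (R + δ) δ hδ
  refine ⟨min ρ₁ r₀, lt_min hρ₁ hr₀, fun x v hx hv hvρ => ?_⟩
  have hv1 : ‖v‖ < ρ₁ := hvρ.trans_le (min_le_left _ _)
  have hv2 : ‖v‖ < r₀ := hvρ.trans_le (min_le_right _ _)
  rcases (norm_nonneg v).eq_or_lt with hv0 | hv0
  · have : v = 0 := norm_eq_zero.1 hv0.symm
    rw [this]; simp
  set ρ := ‖v‖ with hρ
  set e : E1 ι := upd 0 i ρ with he
  have hen : ‖e‖ = ρ := by
    have := dist_upd_left (0 : E1 ι) i ρ
    rw [dist_zero_right] at this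
    rw [he, this]
    have h0 : (0 : E1 ι) i = 0 := rfl
    rw [h0, sub_zero, abs_of_pos hv0]
  have hei : e i = ρ := upd_same _ _ _
  have hej : ∀ j, j ≠ i → e j = 0 := fun j hj => by rw [he, upd_ne _ hj]; rfl
  set P : E1 ι := x with hP
  set P' : E1 ι := x + v with hP'
  set Q : E1 ι := x + e with hQ
  set Q' : E1 ι := x + v + e with hQ'
  have hPi : P i = u := hx
  have hP'i : P' i = u := by
    rw [hP', PiLp.add_apply, hv, add_zero]; exact hx
  have hQi : Q i = u + ρ := by rw [hQ, PiLp.add_apply, hei]; rw [hx]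
  have hQ'i : Q' i = u + ρ := by rw [hQ', PiLp.add_apply, hei]; rw [← hP', hP'i]
  have dPP' : dist P P' = ρ := by rw [hP, hP', dist_self_add_right]
  have dPQ : dist P Q = ρ := by rw [hP, hQ, dist_self_add_right, hen]
  have dQ'P' : dist Q' P' = ρ := by rw [hQ', hP', dist_comm, dist_self_add_right, hen]
  have dQ'Q : dist Q' Q = ρ := by
    rw [hQ', hQ, dist_add_right, dist_comm, dist_self_add_right]
  -- the test function
  set f₀ : E1 ι → ℝ := fun z => max 0 (ρ - min (dist z P') (dist z Q)) with hf₀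
  have hf₀K : LK 1 f₀ := by
    have h1 : LK 1 (fun z => - min (dist z P') (dist z Q) + ρ) := (((LK_dist P').min (LK_dist Q)).neg).add_const ρ
    have h2 := (LK_zero (M := E1 ι)).max h1
    have h3 : f₀ = fun z => max 0 (- min (dist z P') (dist z Q) + ρ) := by
      funext z; rw [hf₀]; congr 1; ring
    rw [h3]; exact h2
  have hf₀b : ∀ z, |f₀ z| ≤ r₀ := by
    intro z
    have h1 : 0 ≤ f₀ z := le_max_left _ _
    rw [abs_of_nonneg h1]
    refine le_trans (max_le hv0.le ?_) hv2.le
    have : 0 ≤ min (dist z P') (dist z Q) := le_min dist_nonneg dist_nonneg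
    linarith
  have f₀P' : f₀ P' = ρ := by
    rw [hf₀]; simp only
    rw [dist_self, min_eq_left dist_nonneg, sub_zero, max_eq_right hv0.le]
  have f₀Q : f₀ Q = ρ := by
    rw [hf₀]; simp only
    rw [dist_self, min_eq_right dist_nonneg, sub_zero, max_eq_right hv0.le]
  have f₀P : f₀ P = 0 := by
    rw [hf₀]; simp only
    rw [dPP', dPQ, min_self, sub_self, max_self]
  have f₀Q' : f₀ Q' = 0 := by
    rw [hf₀]; simp only
    rw [dQ'P', dQ'Q, min_self, sub_self, max_self]
  obtain ⟨g₁, hg₁⟩ := S.tot f₀ ⟨1, hf₀K⟩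
  set g₀ : E1 ι → ℝ := fun z => g₁ z - g₁ 0 with hg₀
  have hRg₀ : S.R f₀ g₀ := S.congr hg₁ (fun _ _ => rfl) (fun x y => by simp only [hg₀]; abel)
  have hg₀K : LK 1 g₀ := (S.iso hRg₀ 1).1 hf₀K
  have hg₀b : ∀ z, |g₀ z| ≤ max δ (‖z‖ - R) := by
    have h1 : ∀ z, ‖z‖ ≤ R + δ → |g₀ z| ≤ δ := fun z hz => hsm f₀ g₁ hg₁ hf₀K hf₀b z hz
    intro z
    by_cases hz : ‖z‖ ≤ R + δ
    · exact (h1 z hz).trans (le_max_left _ _)
    · push Not at hz
      have hz0 : 0 < ‖z‖ := by linarith
      have h2 : ‖((R + δ) / ‖z‖) • z‖ = R + δ := by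
        rw [norm_smul, Real.norm_eq_abs, abs_of_nonneg (by positivity)]
        field_simp
      have h3 : dist z (((R + δ) / ‖z‖) • z) = ‖z‖ - (R + δ) := by
        rw [dist_eq_norm]
        have : z - ((R + δ) / ‖z‖) • z = (1 - (R + δ) / ‖z‖) • z := by
          rw [sub_smul, one_smul]
        rw [this, norm_smul, Real.norm_eq_abs, abs_of_nonneg]
        · field_simp
        · rw [sub_nonneg, div_le_one hz0]; exact hz.le
      have h4 := h1 _ h2.le
      have h5 := hg₀K.abs z (((R + δ) / ‖z‖) • z)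
      rw [h3, one_mul] at h5
      refine le_trans ?_ (le_max_right _ _)
      have h6 := abs_sub_abs_le_abs_sub (g₀ z) (g₀ (((R + δ) / ‖z‖) • z))
      linarith
  -- the cut-off
  set τ : E1 ι → ℝ := fun z => max 0 (max (min (b S i z - (l - δ)) ((r + δ) - b S i z)) (‖z‖ - R)) with hτ
  have hτK : LK 1 τ := by
    have h1 : LK 1 (fun z => b S i z - (l - δ)) := by
      have := (LK_b S i).add_const (-(l - δ))
      simpa [sub_eq_add_neg] using this
    have h2 : LK 1 (fun z => (r + δ) - b S i z) := by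
      have := ((LK_b S i).neg).add_const (r + δ)
      have e : (fun z => (r + δ) - b S i z) = fun z => - b S i z + (r + δ) := by funext z; ring
      rw [e]; exact this
    have h3 : LK 1 (fun z : E1 ι => ‖z‖ - R) := by
      intro y z
      have := norm_sub_norm_le y z
      rw [dist_eq_norm]
      linarith
    exact (LK_zero (M := E1 ι)).max ((h1.min h2).max h3)
  have hτ0 : ∀ z, 0 ≤ τ z := fun z => le_max_left _ _
  have hτA : ∀ z, b S i z ∈ Icc l r → |g₀ z| ≤ τ z := by
    intro z hz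
    refine (hg₀b z).trans (le_trans ?_ (le_max_right _ _))
    apply max_le_max _ le_rfl
    apply le_min <;> linarith [hz.1, hz.2]
  have hτW : ∀ z, w z ≠ 0 → τ z = 0 := by
    intro z hz
    apply le_antisymm _ (hτ0 z)
    apply max_le le_rfl
    apply max_le
    · by_contra hcon
      push Not at hcon
      apply hz
      apply hw0
      have h1 := hcon.trans_le (min_le_left _ _)
      have h2 := hcon.trans_le (min_le_right _ _)
      constructor <;> linarith
    · by_contra hcon
      push Not at hcon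
      apply hz
      apply hwR
      linarith
  set e₀ : E1 ι → ℝ := fun z => max (- τ z) (min (g₀ z) (τ z)) with he₀
  have he₀K : LK 1 e₀ := hτK.neg.max (hg₀K.min hτK)
  have he₀A : ∀ z, b S i z ∈ Icc l r → e₀ z = g₀ z := by
    intro z hz
    have h1 := abs_le.1 (hτA z hz)
    rw [he₀]; simp only
    rw [min_eq_left h1.2, max_eq_right h1.1]
  have he₀W : ∀ z, e₀ z = 0 ∨ w z = 0 := by
    intro z
    by_cases hz : w z = 0
    · right; exact hz
    · left
      have h1 := hτW z hz
      rw [he₀]; simp only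
      rw [h1, neg_zero]
      exact max_eq_left (min_le_right _ _)
  have hp : LK 1 (fun z => e₀ z + w z) := LK_add_disjoint he₀K hw he₀W
  have hm : LK 1 (fun z => e₀ z - w z) := by
    have h1 := LK_add_disjoint he₀K hw.neg (fun z => by
      rcases he₀W z with h | h
      · left; exact h
      · right; rw [h, neg_zero])
    have e : (fun z => e₀ z - w z) = fun z => e₀ z + - w z := by funext z; ring
    rw [e]; exact h1
  have hwA : ∀ z, b S i z ∈ Icc l r → w z = 0 := fun z hz => hw0 z ⟨by linarith [hz.1], by linarith [hz.2]⟩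
  obtain ⟨e₁, he₁⟩ := S.surj e₀ ⟨1, he₀K⟩
  -- the inner estimate
  have inner : ∀ h H : E1 ι → ℝ, S.R h H → LK 1 H → (∀ z, b S i z ∈ Icc l r → H z = g₀ z) →
      ρ - 4 * η * ρ ≤ h P' - h P ∧ h P' - h P ≤ ρ := by
    intro h H hhH hH hHA
    have hhK : LK 1 h := (S.iso hhH 1).2 hH
    have hRk := S.lin hhH hRg₀ (1 / 2) (-(1 / 2))
    set k : E1 ι → ℝ := fun x => 1 / 2 * h x + -(1 / 2) * f₀ x with hk
    set G : E1 ι → ℝ := fun x => 1 / 2 * H x + -(1 / 2) * g₀ x with hG
    have hGK : LK 1 G := by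
      have h1 := (hH.const_mul (1 / 2)).add (hg₀K.const_mul (-(1 / 2)))
      refine h1.mono ?_
      rw [abs_neg, abs_of_pos (by norm_num : (0 : ℝ) < 1 / 2)]
      norm_num
    have hGA : ∀ z, b S i z ∈ Icc l r → G z = 0 := by
      intro z hz
      rw [hG]; simp only
      rw [hHA z hz]; ring
    have c1 := LK_clip_add (LK_b S i) hGK hlr hGA
    have c2 : LK 1 (fun x => clip l r (b S i x) - G x) := by
      have := LK_clip_add (LK_b S i) hGK.neg hlr (fun z hz => by rw [hGA z hz, neg_zero])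
      have e : (fun x => clip l r (b S i x) - G x) = fun x => clip l r (b S i x) + - G x := by
        funext x; ring
      rw [e]; exact this
    have hk1 : ∀ X Y : E1 ι, (∀ j, j ≠ i → Y j = X j) → X i = u → Y i = u + ρ → |k Y - k X| ≤ η * ρ := by
      intro X Y hXY hX hY
      have h1 := coord_pair hA hRk c1 c2 hXY
      rw [hX, hY] at h1
      have h2 : u + ρ - u = ρ := by ring
      rw [h2, abs_of_pos hv0] at h1
      have h3 := hA1 ρ hv0 hv1
      have h4 := le_abs_self (A (u + ρ) - A u)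
      linarith
    have k1 := hk1 P Q (fun j hj => by rw [hQ, PiLp.add_apply, hej j hj, add_zero]) hPi hQi
    have k2 := hk1 P' Q' (fun j hj => by rw [hQ', PiLp.add_apply, hej j hj, add_zero]) hP'i hQ'i
    rw [hk] at k1 k2
    simp only at k1 k2
    rw [f₀Q, f₀P] at k1
    rw [f₀Q', f₀P'] at k2
    rw [abs_le] at k1 k2
    have k3 := hhK Q Q'
    rw [dist_comm, dQ'Q, one_mul] at k3
    have k4 := hhK P' P
    rw [dist_comm, dPP', one_mul] at k4
    constructor
    · linarith [k1.1, k2.2]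
    · exact k4
  have i1 := inner _ _ (Rel.add he₁ hR) hp (fun z hz => by rw [hwA z hz, add_zero]; exact he₀A z hz)
  have i2 := inner _ _ (Rel.sub he₁ hR) hm (fun z hz => by rw [hwA z hz, sub_zero]; exact he₀A z hz)
  rw [abs_le]
  constructor <;> linarith [i1.1, i1.2, i2.1, i2.2]

end R1

end Pool.Agent.U299.LF
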