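import Mathlib
import Pool.Agent.U299.LF.Local

set_option autoImplicit false

open MeasureTheory Set Filter Topology
open Pool.Agent.Helper23K9.LR

namespace Pool.Agent.U299.LF

namespace R1

variable {ι : Type*} [Fintype ι] [DecidableEq ι] {S : Rel (E1 ι)}

/-- the main lemma for functions of bounded support -/
lemma main_loc {i : ι} {l r δ R u : ℝ} (hlr : l ≤ r) (hδ : 0 < δ) (hR0 : 0 ≤ R) {A : ℝ → ℝ}
    (hA : S.R (fun x => A (x i)) (fun x => clip l r (b S i x))) (hAd : HasDerivAt A 1 u)
    {q w : E1 ι → ℝ} (hR : S.R q w) (hw : LK 1 w) (hw0 : ∀ z, b S i z ∈ Icc (l - δ) (r + δ) → w z = 0)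
    (hwR : ∀ z, R < ‖z‖ → w z = 0) {x v : E1 ι} (hx : x i = u) (hv : v i = 0) : q (x + v) = q x := by
  have key : ∀ η : ℝ, 0 < η → |q (x + v) - q x| ≤ 2 * η * ‖v‖ := by
    intro η hη
    obtain ⟨ρ₀, hρ₀, hloc⟩ := local_estimate hlr hδ hR0 hA hAd hR hw hw0 hwR hη
    obtain ⟨n, hn⟩ := exists_nat_gt (‖v‖ / ρ₀)
    have hn0 : (0 : ℝ) < n := lt_of_le_of_lt (by positivity) hn
    have hstep : ‖((1 : ℝ) / n) • v‖ < ρ₀ := by
      rw [norm_smul, Real.norm_eq_abs, abs_of_pos (by positivity)]
      rw [div_lt_iff₀ hρ₀] at hn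
      rw [div_mul_eq_mul_div, one_mul, div_lt_iff₀ hn0]
      linarith
    have hstepv : (((1 : ℝ) / n) • v) i = 0 := by
      rw [PiLp.smul_apply, hv, smul_zero]
    have hind : ∀ k : ℕ, |q (x + ((k : ℝ) / n) • v) - q x| ≤ k * (2 * η * ‖((1 : ℝ) / n) • v‖) := by
      intro k
      induction k with
      | zero => simp
      | succ k ih =>
        have e1 : x + (((k + 1 : ℕ) : ℝ) / n) • v = (x + ((k : ℝ) / n) • v) + ((1 : ℝ) / n) • v := by
          rw [add_assoc, ← add_smul]
          congr 2
          push_cast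
          ring
        have e2 : (x + ((k : ℝ) / n) • v) i = u := by
          rw [PiLp.add_apply, PiLp.smul_apply, hv, smul_zero, add_zero, hx]
        have e3 := hloc _ _ e2 hstepv hstep
        rw [e1]
        push_cast
        have e4 := abs_sub_le (q ((x + ((k : ℝ) / n) • v) + ((1 : ℝ) / n) • v)) (q (x + ((k : ℝ) / n) • v)) (q x)
        linarith
    have h1 := hind n
    have hns : ‖((1 : ℝ) / n) • v‖ = 1 / n * ‖v‖ := by
      rw [norm_smul, Real.norm_eq_abs, abs_of_pos (by positivity)]
    rw [div_self hn0.ne', one_smul, hns] at h1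
    refine h1.trans (le_of_eq ?_)
    field_simp
  have h1 : |q (x + v) - q x| ≤ 0 := by
    apply le_of_forall_pos_le_add
    intro ε hε
    have h2 := key (ε / (2 * (‖v‖ + 1))) (by positivity)
    have h3 : 2 * (ε / (2 * (‖v‖ + 1))) * ‖v‖ ≤ ε := by
      have : 2 * (ε / (2 * (‖v‖ + 1))) * ‖v‖ = ε * (‖v‖ / (‖v‖ + 1)) := by field_simp
      rw [this]
      have h4 : ‖v‖ / (‖v‖ + 1) ≤ 1 := by
        rw [div_le_one (by positivity)]
        linarith
      nlinarith
    linarith
  have := abs_eq_zero.1 (le_antisymm h1 (abs_nonneg _))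
  linarith

/-- the main lemma without the condition on the support -/
lemma loc_of_strip {i : ι} {l r δ u : ℝ} (hlr : l ≤ r) (hδ : 0 < δ) {A : ℝ → ℝ}
    (hA : S.R (fun x => A (x i)) (fun x => clip l r (b S i x))) (hAd : HasDerivAt A 1 u)
    {q g : E1 ι → ℝ} (hR : S.R q g) (hg : LK 1 g) (hg0 : ∀ z, b S i z ∈ Icc (l - δ) (r + δ) → g z = 0)
    {x y : E1 ι} (hx : x i = u) (hy : y i = u) : q x = q y := by
  set τ : ℕ → E1 ι → ℝ := fun n z => max 0 ((n : ℝ) - ‖z‖) with hτ
  have hτK : ∀ n, LK 1 (τ n) := by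
    intro n
    have h1 : LK 1 (fun z : E1 ι => (n : ℝ) - ‖z‖) := by
      intro y z
      have := norm_sub_norm_le z y
      rw [dist_comm, dist_eq_norm]
      linarith
    exact (LK_zero (M := E1 ι)).max h1
  set w : ℕ → E1 ι → ℝ := fun n z => max (- τ n z) (min (g z) (τ n z)) with hw
  have hwK : ∀ n, LK 1 (w n) := fun n => (hτK n).neg.max (hg.min (hτK n))
  choose p hp using fun n => S.surj (w n) ⟨1, hwK n⟩
  have hτ0 : ∀ n z, 0 ≤ τ n z := fun n z => le_max_left _ _
  have hw0 : ∀ n z, g z = 0 → w n z = 0 := by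
    intro n z hz
    have := hτ0 n z
    rw [hw]; simp only
    rw [hz, min_eq_left this, max_eq_right (by linarith)]
  have hwR : ∀ (n : ℕ) z, (n : ℝ) < ‖z‖ → w n z = 0 := by
    intro n z hz
    have h1 : τ n z = 0 := max_eq_left (by linarith)
    rw [hw]; simp only
    rw [h1, neg_zero]
    exact max_eq_left (min_le_right _ _)
  have hconst : ∀ n, p n x = p n y := by
    intro n
    have e : y = x + (y - x) := by abel
    rw [e]
    exact (main_loc (R := n) hlr hδ (Nat.cast_nonneg n) hA hAd (hp n) (hwK n) (fun z hz => hw0 n z (hg0 z hz))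
      (hwR n) hx (by rw [PiLp.sub_apply, hx, hy, sub_self])).symm
  have hwlim : ∀ z, ∀ᶠ n in atTop, w n z = g z := by
    intro z
    obtain ⟨N, hN⟩ := exists_nat_ge (‖z‖ + |g z|)
    filter_upwards [eventually_ge_atTop N] with n hn
    have hn' : (N : ℝ) ≤ n := by exact_mod_cast hn
    have h1 : |g z| ≤ τ n z := by
      refine le_trans ?_ (le_max_right _ _)
      linarith
    have h2 := abs_le.1 h1
    rw [hw]; simp only
    rw [min_eq_left h2.2, max_eq_right h2.1]
  have h1 := S.cont' p w q g 1 hp (fun n => (S.iso (hp n) 1).2 (hwK n)) hR (fun x y => by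
    apply tendsto_const_nhds.congr'
    filter_upwards [hwlim x, hwlim y] with n h1 h2
    rw [h1, h2]) x y
  have h2 : Tendsto (fun n => p n x - p n y) atTop (𝓝 0) := by
    have : (fun n => p n x - p n y) = fun _ => 0 := by
      funext n
      rw [hconst n, sub_self]
    rw [this]
    exact tendsto_const_nhds
  have h3 := tendsto_nhds_unique h1 h2
  linarith

/-- the images of functions which vanish on the hyperplane `z i = B u` are constant on `x i = u` -/
lemma loc_const {i : ι} (D : Data S i) {u : ℝ} (hu : u ∈ D.D) {K : ℝ} {f : E1 ι → ℝ} (hf : LK K f)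
    (hf0 : ∀ z : E1 ι, z i = D.B u → f z = 0) {q : E1 ι → ℝ} (hR : S.R q (fun x => f (bE S x)))
    {x y : E1 ι} (hx : x i = u) (hy : y i = u) : q x = q y := by
  have key : ∀ f : E1 ι → ℝ, LK 1 f → (∀ z : E1 ι, z i = D.B u → f z = 0) → ∀ q : E1 ι → ℝ,
      S.R q (fun x => f (bE S x)) → q x = q y := by
    intro f hf hf0 q hR
    set B := D.B u with hB
    set ε : ℕ → ℝ := fun n => 1 / ((n : ℝ) + 1) with hε
    have hε0 : ∀ n, 0 < ε n := fun n => by rw [hε]; positivity
    have hεlim : Tendsto ε atTop (𝓝 0) := tendsto_one_div_add_atTop_nhds_zero_nat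
    -- soft threshold
    set s : ℕ → ℝ → ℝ := fun n t => t - (clip (-(2 * ε n)) (2 * ε n) t - 2 * ε n) with hs
    have hsK : ∀ n, LK 1 (s n) := by
      intro n
      have h1 : Slope (s n) := by
        intro t t' ht
        have h2 := slope_clip' (show -(2 * ε n) ≤ 2 * ε n by linarith [hε0 n]) t t' ht
        rw [hs]; simp only
        constructor <;> linarith [h2.1, h2.2]
      exact h1.LK
    have hs0 : ∀ n t, |t| ≤ 2 * ε n → s n t = 0 := by
      intro n t ht
      have h1 := abs_le.1 ht
      rw [hs]; simp only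
      rw [clip_of_mem h1.1 h1.2]
      ring
    have hsd : ∀ n t, |s n t - t| ≤ 2 * ε n := by
      intro n t
      have hn := hε0 n
      have hle : -(2 * ε n) ≤ 2 * ε n := by linarith
      have e : s n t - t = 2 * ε n - clip (-(2 * ε n)) (2 * ε n) t := by rw [hs]; ring
      rw [e]
      rcases le_total t (-(2 * ε n)) with h1 | h1
      · rw [clip_of_le hle h1, sub_zero, abs_of_pos (by linarith)]
      · rcases le_total t (2 * ε n) with h2 | h2
        · rw [clip_of_mem h1 h2, abs_le]; constructor <;> linarith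
        · rw [clip_of_ge hle h2, abs_le]; constructor <;> linarith
    have hfb : ∀ z : E1 ι, |f z| ≤ |z i - B| := by
      intro z
      have h1 := hf.abs (upd z i B) z
      rw [hf0 _ (upd_same _ _ _), dist_upd_left, one_mul, zero_sub, abs_neg, abs_sub_comm] at h1
      exact h1
    have hgK : ∀ n, LK 1 (fun x => s n (f (bE S x))) := by
      intro n
      have h1 := Rel.LK.comp_real zero_le_one (hsK n) (LK_comp_bE S zero_le_one hf)
      rwa [mul_one] at h1
    choose p hp using fun n => S.surj (fun x => s n (f (bE S x))) ⟨1, hgK n⟩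
    have hconst : ∀ n, p n x = p n y := by
      intro n
      have hn := hε0 n
      obtain ⟨l, hl1, hl2⟩ := exists_rat_btwn (show B - ε n < B by linarith)
      obtain ⟨r, hr1, hr2⟩ := exists_rat_btwn (show B < B + ε n by linarith)
      have hA : S.R (fun x => (fun t => D.F l t - D.F r t) (x i)) (fun x => clip l r (b S i x)) :=
        Rel.sub (D.hF l) (D.hF r)
      have hAd : HasDerivAt (fun t => D.F l t - D.F r t) 1 u := by
        have := (D.one u hu l hl2).sub (D.zero u hu r hr1)
        rw [sub_zero] at this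
        exact this
      refine loc_of_strip (δ := ε n) (hl2.trans hr1).le hn hA hAd (hp n) (hgK n) (fun z hz => ?_) hx hy
      apply hs0
      refine (hfb _).trans ?_
      rw [bE_apply, abs_le]
      constructor <;> linarith [hz.1, hz.2]
    have h1 := S.cont' p (fun n x => s n (f (bE S x))) q (fun x => f (bE S x)) 1 hp
      (fun n => (S.iso (hp n) 1).2 (hgK n)) hR (fun x y => by
        rw [tendsto_iff_norm_sub_tendsto_zero]
        have e0 : Tendsto (fun n => 4 * ε n) atTop (𝓝 (4 * 0)) := hεlim.const_mul 4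
        rw [mul_zero] at e0
        apply squeeze_zero_norm _ e0
        intro n
        rw [norm_norm, Real.norm_eq_abs]
        have e1 := hsd n (f (bE S x))
        have e2 := hsd n (f (bE S y))
        have e3 : s n (f (bE S x)) - s n (f (bE S y)) - (f (bE S x) - f (bE S y)) =
          (s n (f (bE S x)) - f (bE S x)) - (s n (f (bE S y)) - f (bE S y)) := by ring
        rw [e3]
        have e4 := abs_sub (s n (f (bE S x)) - f (bE S x)) (s n (f (bE S y)) - f (bE S y))
        linarith) x y
    have h2 : Tendsto (fun n => p n x - p n y) atTop (𝓝 0) := by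
      have : (fun n => p n x - p n y) = fun _ => 0 := by
        funext n
        rw [hconst n, sub_self]
      rw [this]
      exact tendsto_const_nhds
    have h3 := tendsto_nhds_unique h1 h2
    linarith
  have hK : 0 < |K| + 1 := by positivity
  have h1 := key (fun z => (|K| + 1)⁻¹ * f z) (by
    have h1 := (hf.mono (show K ≤ |K| + 1 by have := le_abs_self K; linarith)).const_mul (|K| + 1)⁻¹
    rwa [abs_of_pos (inv_pos.2 hK), inv_mul_cancel₀ hK.ne'] at h1)
    (fun z hz => by rw [hf0 z hz, mul_zero]) (fun z => (|K| + 1)⁻¹ * q z) (Rel.smul hR _)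
  beta_reduce at h1
  exact mul_left_cancel₀ (inv_pos.2 hK).ne' h1

end R1

end Pool.Agent.U299.LF
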