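import Mathlib
import Pool.Agent.U299.LF.Const

set_option autoImplicit false

open MeasureTheory Set Filter Topology
open Pool.Agent.Helper23K9.LR

namespace Pool.Agent.U299.LF

section frz
variable {ι : Type*} [Fintype ι] [DecidableEq ι]

/-- replace the coordinates in `J` by those of `c` -/
def frz (J : Finset ι) (c z : E1 ι) : E1 ι := WithLp.toLp 1 (fun j => if j ∈ J then c j else z j)

lemma frz_apply (J : Finset ι) (c z : E1 ι) (j : ι) : (frz J c z) j = if j ∈ J then c j else z j := rfl

lemma frz_empty (c z : E1 ι) : frz ∅ c z = z := by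
  ext j
  rw [frz_apply]
  simp

lemma frz_univ (c z : E1 ι) : frz Finset.univ c z = c := by
  ext j
  rw [frz_apply]
  simp

lemma frz_erase (k : ι) (c z : E1 ι) : frz (Finset.univ.erase k) c z = upd c k (z k) := by
  ext j
  rw [frz_apply]
  by_cases h : j = k
  · subst h
    rw [upd_same, if_neg (by simp)]
  · rw [upd_ne _ h, if_pos (by simp [h])]

lemma frz_insert_of_eq {J : Finset ι} {a : ι} {c z : E1 ι} (h : z a = c a) :
    frz (insert a J) c z = frz J c z := by
  ext j
  rw [frz_apply, frz_apply]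
  by_cases h1 : j = a
  · subst h1
    rw [if_pos (Finset.mem_insert_self _ _), h]
    split_ifs <;> rfl
  · simp [h1]

lemma frz_insert {J : Finset ι} {a : ι} (c z : E1 ι) :
    frz (insert a J) c z = upd (frz J c z) a (c a) := by
  ext j
  by_cases h1 : j = a
  · subst h1
    rw [upd_same, frz_apply, if_pos (Finset.mem_insert_self _ _)]
  · rw [upd_ne _ h1, frz_apply, frz_apply]
    simp [h1]

lemma dist_frz (J : Finset ι) (c z w : E1 ι) : dist (frz J c z) (frz J c w) ≤ dist z w := by
  rw [dist_eq, dist_eq]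
  apply Finset.sum_le_sum
  intro j _
  rw [frz_apply, frz_apply]
  split_ifs
  · rw [sub_self, abs_zero]; exact abs_nonneg _
  · exact le_rfl

lemma LK_frz {K : ℝ} {f : E1 ι → ℝ} (hf : LK K f) (J : Finset ι) (c : E1 ι) :
    LK |K| (fun z => f (frz J c z)) := fun z w =>
  ((hf.mono (le_abs_self K)) _ _).trans (mul_le_mul_of_nonneg_left (dist_frz J c z w) (abs_nonneg K))

lemma LK_upd {K : ℝ} {f : E1 ι → ℝ} (hf : LK K f) (c : E1 ι) (k : ι) :
    LK K (fun t => f (upd c k t)) := fun t t' => by
  have := hf (upd c k t) (upd c k t')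
  rw [dist_upd] at this
  rwa [Real.dist_eq]

end frz

namespace R1

variable {ι : Type*} [Fintype ι] [DecidableEq ι] {S : Rel (E1 ι)} (D : ∀ i, Data S i)

/-- the vector `B_j (x_j)` -/
noncomputable def Bv (x : E1 ι) : E1 ι := WithLp.toLp 1 (fun j => (D j).B (x j))

lemma Bv_apply (x : E1 ι) (j : ι) : (Bv D x) j = (D j).B (x j) := rfl

lemma freeze {K : ℝ} {f : E1 ι → ℝ} (hf : LK K f) {q : E1 ι → ℝ} (hR : S.R q (fun x => f (bE S x)))
    {x y : E1 ι} (J : Finset ι) (hxy : ∀ j ∈ J, x j = y j) (hx : ∀ j ∈ J, x j ∈ (D j).D) :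
    ∀ p : E1 ι → ℝ, S.R p (fun z => f (frz J (Bv D x) (bE S z))) → p x - p y = q x - q y := by
  induction J using Finset.induction_on with
  | empty =>
    intro p hp
    simp only [frz_empty] at hp
    exact Rel.uniq' hp hR x y
  | insert a J ha ih =>
    intro p hp
    have hK := LK_comp_bE S (abs_nonneg K) (LK_frz hf J (Bv D x))
    obtain ⟨p', hp'⟩ := S.surj _ ⟨_, hK⟩
    have h1 := ih (fun j hj => hxy j (Finset.mem_insert_of_mem hj))
      (fun j hj => hx j (Finset.mem_insert_of_mem hj)) p' hp'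
    have h2 : S.R (fun z => p z - p' z) (fun z => (fun w => f (frz (insert a J) (Bv D x) w) -
        f (frz J (Bv D x) w)) (bE S z)) := Rel.sub hp hp'
    have h3 : LK (|K| + |K|) (fun w => f (frz (insert a J) (Bv D x) w) - f (frz J (Bv D x) w)) := by
      have := (LK_frz hf (insert a J) (Bv D x)).add (LK_frz hf J (Bv D x)).neg
      simpa [sub_eq_add_neg] using this
    have h4 := loc_const (D a) (hx a (Finset.mem_insert_self _ _)) h3 (fun z hz => by
      rw [frz_insert_of_eq (by rw [Bv_apply]; exact hz), sub_self]) h2 (x := x) (y := y) rfl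
      (hxy a (Finset.mem_insert_self _ _)).symm
    beta_reduce at h4
    linarith

/-- the increments along a coordinate line -/
theorem along {K : ℝ} {f : E1 ι → ℝ} (hf : LK K f) {q : E1 ι → ℝ} (hR : S.R q (fun x => f (bE S x)))
    {x y : E1 ι} (k : ι) (hxy : ∀ j, j ≠ k → x j = y j) (hx : ∀ j, j ≠ k → x j ∈ (D j).D) {F : ℝ → ℝ}
    (hF : S.R (fun z => F (z k)) (fun z => f (upd (Bv D x) k (b S k z)))) :
    q x - q y = F (x k) - F (y k) := by
  have h1 := freeze D hf hR (Finset.univ.erase k) (fun j hj => hxy j (Finset.ne_of_mem_erase hj))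
    (fun j hj => hx j (Finset.ne_of_mem_erase hj)) (fun z => F (z k)) (by
      simp only [frz_erase]
      exact hF)
  exact h1.symm

/-- truncation -/
noncomputable def cut (n : ℕ) (t : ℝ) : ℝ := clip (-(n : ℝ)) n t - n

lemma cut_slope (n : ℕ) : Slope (cut n) := by
  intro u v h
  have hn : -(n : ℝ) ≤ n := by have : (0 : ℝ) ≤ n := Nat.cast_nonneg n; linarith
  have := slope_clip' hn u v h
  unfold cut
  constructor <;> linarith [this.1, this.2]

lemma cut_eq {n : ℕ} {t : ℝ} (h : |t| ≤ n) : cut n t = t := by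
  have := abs_le.1 h
  unfold cut
  rw [clip_of_mem this.1 this.2]
  ring

lemma cut_abs (n : ℕ) (t : ℝ) : |cut n t| ≤ n := by
  have hn : (0 : ℝ) ≤ n := Nat.cast_nonneg n
  unfold cut
  rcases le_total t (-(n : ℝ)) with h1 | h1
  · rw [clip_of_le (by linarith) h1, zero_sub, abs_neg, abs_of_nonneg hn]
  · rcases le_total t n with h2 | h2
    · rw [clip_of_mem h1 h2, abs_le]; constructor <;> linarith
    · rw [clip_of_ge (by linarith) h2, abs_le]; constructor <;> linarith

lemma cut_tendsto (t : ℝ) : Tendsto (fun n => cut n t) atTop (𝓝 t) := by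
  apply tendsto_const_nhds.congr'
  obtain ⟨N, hN⟩ := exists_nat_ge |t|
  filter_upwards [eventually_ge_atTop N] with n hn
  have hn' : (N : ℝ) ≤ n := by exact_mod_cast hn
  rw [cut_eq (hN.trans hn')]

omit [Fintype ι] [DecidableEq ι] in
lemma LK_mul {M : Type*} [PseudoMetricSpace M] {f g : M → ℝ} {C : ℝ} (hf : LK 1 f) (hg : LK 1 g)
    (hfb : ∀ x, |f x| ≤ C) (hgb : ∀ x, |g x| ≤ C) : LK (2 * C) (fun x => f x * g x) := fun x y => by
  have h1 := hf.abs x y
  have h2 := hg.abs x y
  have e : f x * g x - f y * g y = (f x - f y) * g x + f y * (g x - g y) := by ring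
  beta_reduce
  rw [e]
  have h3 : |(f x - f y) * g x| ≤ dist x y * C := by
    rw [abs_mul]
    rw [one_mul] at h1
    exact mul_le_mul h1 (hgb x) (abs_nonneg _) dist_nonneg
  have h4 : |f y * (g x - g y)| ≤ C * dist x y := by
    rw [abs_mul]
    rw [one_mul] at h2
    exact mul_le_mul (hfb y) h2 (abs_nonneg _) ((abs_nonneg _).trans (hfb y))
  have h5 := le_abs_self ((f x - f y) * g x)
  have h6 := le_abs_self (f y * (g x - g y))
  linarith

lemma cut_image_tendsto {i : ι} {A : ℕ → ℝ → ℝ}
    (hA : ∀ n, S.R (fun x => A n (x i)) (fun x => cut n (b S i x))) (u u' : ℝ) :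
    Tendsto (fun n => A n u - A n u') atTop (𝓝 (u - u')) := by
  have hAK : ∀ n, LK 1 (fun x : E1 ι => A n (x i)) := fun n =>
    (S.iso (hA n) 1).2 (LK_comp_b S i zero_le_one (cut_slope n).LK)
  have h1 := S.cont' (fun n x => A n (x i)) (fun n x => cut n (b S i x)) (fun x => x i) (b S i) 1 hA hAK
    (R_b S i) (fun x y => (cut_tendsto _).sub (cut_tendsto _)) (upd 0 i u) (upd 0 i u')
  simp only [upd_same] at h1
  exact h1

/-- The functional equation. -/
theorem functional {i j : ι} (hij : i ≠ j) {u u' v v' : ℝ} (hu : u ∈ (D i).D) (hu' : u' ∈ (D i).D)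
    (hv : v ∈ (D j).D) (hv' : v' ∈ (D j).D) :
    ((D j).B v - (D j).B v') * (u - u') = ((D i).B u - (D i).B u') * (v - v') := by
  have hne : ∀ k, ∃ t, t ∈ (D k).D := fun k => (D k).hD.exists
  choose t₀ ht₀ using hne
  set x₀ : E1 ι := WithLp.toLp 1 t₀ with hx₀
  set P : ℝ → ℝ → E1 ι := fun u v => upd (upd x₀ i u) j v with hP
  have hPi : ∀ u v, (P u v) i = u := fun u v => by rw [hP]; simp only; rw [upd_ne _ hij, upd_same]
  have hPj : ∀ u v, (P u v) j = v := fun u v => by rw [hP]; simp only; rw [upd_same]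
  have hPk : ∀ u v k, k ≠ i → k ≠ j → (P u v) k = t₀ k := fun u v k hki hkj => by
    rw [hP]; simp only; rw [upd_ne _ hkj, upd_ne _ hki]
  have hmem : ∀ u v, u ∈ (D i).D → v ∈ (D j).D → ∀ k, (P u v) k ∈ (D k).D := by
    intro u v hu hv k
    by_cases hki : k = i
    · subst hki; rw [hPi]; exact hu
    · by_cases hkj : k = j
      · subst hkj; rw [hPj]; exact hv
      · rw [hPk u v k hki hkj]; exact ht₀ k
  have hcK : ∀ n, LK 1 (cut n) := fun n => (cut_slope n).LK
  choose A hA using fun n => exists_ridge S i (hcK n)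
  choose A' hA' using fun n => exists_ridge S j (hcK n)
  have main : ∀ n : ℕ, (cut n ((D j).B v) - cut n ((D j).B v')) * (A n u - A n u') =
      (cut n ((D i).B u) - cut n ((D i).B u')) * (A' n v - A' n v') := by
    intro n
    set f : E1 ι → ℝ := fun z => cut n (z i) * cut n (z j) with hf
    have hfK : LK (2 * n) f := LK_mul (LK_comp_coord i zero_le_one (hcK n))
      (LK_comp_coord j zero_le_one (hcK n)) (fun x => cut_abs _ _) (fun x => cut_abs _ _)
    obtain ⟨q, hq⟩ := S.surj _ ⟨_, LK_comp_bE S (by positivity) hfK⟩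
    have L1 : ∀ u u' v, u ∈ (D i).D → v ∈ (D j).D →
        q (P u v) - q (P u' v) = cut n ((D j).B v) * (A n u - A n u') := by
      intro u u' v hu hv
      have h1 := along D hfK hq (x := P u v) (y := P u' v) i (fun k hk => by
        by_cases hkj : k = j
        · subst hkj; rw [hPj, hPj]
        · rw [hPk _ _ _ hk hkj, hPk _ _ _ hk hkj]) (fun k _ => hmem u v hu hv k)
        (F := fun s => cut n ((D j).B v) * A n s) (by
          have h2 := Rel.smul (hA n) (cut n ((D j).B v))
          have h3 : (fun z => f (upd (Bv D (P u v)) i (b S i z))) =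
              fun z => cut n ((D j).B v) * cut n (b S i z) := by
            funext z
            rw [hf]; simp only
            rw [upd_same, upd_ne _ hij.symm, Bv_apply, hPj]
            ring
          rw [h3]; exact h2)
      rw [hPi, hPi] at h1
      rw [h1]; ring
    have L2 : ∀ u v v', u ∈ (D i).D → v ∈ (D j).D →
        q (P u v) - q (P u v') = cut n ((D i).B u) * (A' n v - A' n v') := by
      intro u v v' hu hv
      have h1 := along D hfK hq (x := P u v) (y := P u v') j (fun k hk => by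
        by_cases hki : k = i
        · subst hki; rw [hPi, hPi]
        · rw [hPk _ _ _ hki hk, hPk _ _ _ hki hk]) (fun k _ => hmem u v hu hv k)
        (F := fun s => cut n ((D i).B u) * A' n s) (by
          have h2 := Rel.smul (hA' n) (cut n ((D i).B u))
          have h3 : (fun z => f (upd (Bv D (P u v)) j (b S j z))) =
              fun z => cut n ((D i).B u) * cut n (b S j z) := by
            funext z
            rw [hf]; simp only
            rw [upd_same, upd_ne _ hij, Bv_apply, hPi]
          rw [h3]; exact h2)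
      rw [hPj, hPj] at h1
      rw [h1]; ring
    have e1 := L1 u u' v hu hv
    have e2 := L1 u u' v' hu hv'
    have e3 := L2 u v v' hu hv
    have e4 := L2 u' v v' hu' hv
    linarith
  have lim1 := ((cut_tendsto ((D j).B v)).sub (cut_tendsto ((D j).B v'))).mul (cut_image_tendsto hA u u')
  have lim2 := ((cut_tendsto ((D i).B u)).sub (cut_tendsto ((D i).B u'))).mul (cut_image_tendsto hA' v v')
  simp only [main] at lim1
  exact tendsto_nhds_unique lim1 lim2

/-- the common slope -/
theorem exists_kappa [Nontrivial ι] : ∃ κ : ℝ, κ ≠ 0 ∧ ∃ c : ι → ℝ, ∀ i, ∀ u ∈ (D i).D, (D i).B u = κ * u + c i := by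
  have htwo : ∀ k, ∃ p p', p ∈ (D k).D ∧ p' ∈ (D k).D ∧ p < p' := by
    intro k
    have hd : Dense {x | x ∈ (D k).D} := Measure.dense_of_ae (D k).hD
    obtain ⟨p, hp, hp'⟩ := hd.exists_between (show (0 : ℝ) < 1 by norm_num)
    obtain ⟨r, hr, hr'⟩ := hd.exists_between (show (1 : ℝ) < 2 by norm_num)
    exact ⟨p, r, hp, hr, by linarith [hp'.2, hr'.1]⟩
  choose p p' hp hp' hpp using htwo
  set s : ι → ℝ := fun k => ((D k).B (p' k) - (D k).B (p k)) / (p' k - p k) with hs
  have h1 : ∀ i j, i ≠ j → ∀ u ∈ (D i).D, ∀ u' ∈ (D i).D, (D i).B u - (D i).B u' = s j * (u - u') := by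
    intro i j hij u hu u' hu'
    have h2 := functional D hij hu hu' (hp' j) (hp j)
    have h3 : p' j - p j ≠ 0 := sub_ne_zero.2 (hpp j).ne'
    rw [hs]; simp only
    rw [div_mul_eq_mul_div, h2]
    field_simp
  have h2 : ∀ i j, i ≠ j → s i = s j := by
    intro i j hij
    have h3 := h1 i j hij _ (hp' i) _ (hp i)
    have h4 : p' i - p i ≠ 0 := sub_ne_zero.2 (hpp i).ne'
    have h5 : s i = ((D i).B (p' i) - (D i).B (p i)) / (p' i - p i) := rfl
    rw [h5, h3]
    field_simp
  obtain ⟨i₀, i₁, hi⟩ := exists_pair_ne ι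
  have h3 : ∀ i, ∀ u ∈ (D i).D, ∀ u' ∈ (D i).D, (D i).B u - (D i).B u' = s i₀ * (u - u') := by
    intro i u hu u' hu'
    by_cases hii : i = i₀
    · subst hii
      rw [h1 i i₁ hi u hu u' hu', h2 i i₁ hi]
    · exact h1 i i₀ hii u hu u' hu'
  have h4 : ∀ i, ∀ u ∈ (D i).D, (D i).B u = s i₀ * u + ((D i).B (p i) - s i₀ * p i) := by
    intro i u hu
    have := h3 i u hu _ (hp i)
    linarith
  refine ⟨s i₀, ?_, fun i => (D i).B (p i) - s i₀ * p i, h4⟩
  intro h0
  apply kappa_ne_zero (D i₀) (c := (D i₀).B (p i₀))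
  filter_upwards [(D i₀).hD] with u hu
  have := h4 i₀ u hu
  rw [h0] at this
  linarith

end R1

end Pool.Agent.U299.LF
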