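import Mathlib
import Pool.Agent.U299.LF.Freeze

set_option autoImplicit false

open MeasureTheory Set Filter Topology
open Pool.Agent.Helper23K9.LR

namespace Pool.Agent.U299.LF

/-- the nodes -/
noncomputable def node (s h : ℝ) (k : ℕ) : ℝ := s + k * h

/-- piecewise linear interpolation -/
noncomputable def poly (φ : ℝ → ℝ) (s h : ℝ) (m : ℕ) (u : ℝ) : ℝ :=
  ∑ k ∈ Finset.range m, (φ (node s h (k + 1)) - φ (node s h k)) / h * clip (node s h k) (node s h (k + 1)) u

lemma node_succ (s h : ℝ) (k : ℕ) : node s h (k + 1) = node s h k + h := by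
  unfold node; push_cast; ring

lemma node_le {s h : ℝ} (hh : 0 < h) (k : ℕ) : node s h k ≤ node s h (k + 1) := by
  rw [node_succ]; linarith

lemma sum_clip (s h : ℝ) (m : ℕ) (u : ℝ) :
    ∑ k ∈ Finset.range m, clip (node s h k) (node s h (k + 1)) u = clip (node s h 0) (node s h m) u := by
  unfold clip
  exact Finset.sum_range_sub' (fun k => Rel.hinge (node s h k) u) m

lemma coef_le {φ : ℝ → ℝ} {K s h : ℝ} (hφ : LK K φ) (hh : 0 < h) (k : ℕ) :
    |(φ (node s h (k + 1)) - φ (node s h k)) / h| ≤ K := by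
  have h1 := hφ.abs (node s h (k + 1)) (node s h k)
  rw [Real.dist_eq, node_succ, add_sub_cancel_left, abs_of_pos hh] at h1
  rw [abs_div, abs_of_pos hh, div_le_iff₀ hh, node_succ]
  exact h1

lemma LK_nonneg {φ : ℝ → ℝ} {K : ℝ} (hφ : LK K φ) : 0 ≤ K := by
  have h1 := hφ.abs 1 0
  rw [Real.dist_eq] at h1
  have := abs_nonneg (φ 1 - φ 0)
  norm_num at h1
  linarith

lemma node_mono {s h : ℝ} (hh : 0 < h) (m : ℕ) : node s h 0 ≤ node s h m := by
  unfold node
  have : (0 : ℝ) ≤ m := Nat.cast_nonneg m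
  simp only [Nat.cast_zero, zero_mul, add_zero]
  nlinarith

lemma LK_poly {φ : ℝ → ℝ} {K s h : ℝ} (hφ : LK K φ) (hh : 0 < h) (m : ℕ) : LK K (poly φ s h m) := by
  have hK := LK_nonneg hφ
  have key : ∀ u v, v ≤ u → |poly φ s h m u - poly φ s h m v| ≤ K * (u - v) := by
    intro u v huv
    unfold poly
    rw [← Finset.sum_sub_distrib]
    have h1 : ∀ k ∈ Finset.range m, |(φ (node s h (k + 1)) - φ (node s h k)) / h * clip (node s h k) (node s h (k + 1)) u -
        (φ (node s h (k + 1)) - φ (node s h k)) / h * clip (node s h k) (node s h (k + 1)) v| ≤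
        K * (clip (node s h k) (node s h (k + 1)) u - clip (node s h k) (node s h (k + 1)) v) := by
      intro k _
      rw [← mul_sub, abs_mul]
      have h2 := (slope_clip' (node_le (s := s) hh k) u v huv).1
      rw [abs_of_nonneg h2]
      exact mul_le_mul_of_nonneg_right (coef_le hφ hh k) h2
    refine (Finset.abs_sum_le_sum_abs _ _).trans ((Finset.sum_le_sum h1).trans ?_)
    rw [← Finset.mul_sum, Finset.sum_sub_distrib, sum_clip, sum_clip]
    apply mul_le_mul_of_nonneg_left _ hK
    exact (slope_clip' (node_mono hh m) u v huv).2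
  intro u v
  rw [Real.dist_eq]
  rcases le_total v u with h1 | h1
  · rw [abs_of_nonneg (by linarith)]
    exact (le_abs_self _).trans (key u v h1)
  · rw [abs_of_nonpos (by linarith)]
    have := key v u h1
    rw [abs_sub_comm] at this
    have h2 := (le_abs_self _).trans this
    linarith

lemma poly_of_ge {φ : ℝ → ℝ} {s h : ℝ} (hh : 0 < h) (m : ℕ) {u : ℝ} (hu : node s h m ≤ u) :
    poly φ s h m u = φ (node s h m) - φ (node s h 0) := by
  induction m with
  | zero => unfold poly; simp
  | succ m ih =>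
    have h1 := ih ((node_le hh m).trans hu)
    unfold poly at h1 ⊢
    rw [Finset.sum_range_succ, h1, clip_of_ge (node_le hh m) hu, node_succ]
    field_simp
    ring

lemma poly_near {φ : ℝ → ℝ} {K s h : ℝ} (hφ : LK K φ) (hh : 0 < h) (m : ℕ) {u : ℝ} (hu0 : node s h 0 ≤ u)
    (hu : u ≤ node s h m) : |poly φ s h m u - (φ u - φ (node s h 0))| ≤ 2 * K * h := by
  have hK := LK_nonneg hφ
  induction m with
  | zero =>
    have h1 : u = node s h 0 := le_antisymm hu hu0
    rw [h1]
    unfold poly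
    simp
    positivity
  | succ m ih =>
    rcases le_total u (node s h m) with h1 | h1
    · have h2 := ih h1
      have h3 : poly φ s h (m + 1) u = poly φ s h m u := by
        unfold poly
        rw [Finset.sum_range_succ, clip_of_le (node_le hh m) h1, mul_zero, add_zero]
      rw [h3]; exact h2
    · have h3 : poly φ s h (m + 1) u = poly φ s h m u +
          (φ (node s h (m + 1)) - φ (node s h m)) / h * (u - node s h m) := by
        unfold poly
        rw [Finset.sum_range_succ, clip_of_mem h1 hu]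
      rw [h3, poly_of_ge hh m h1]
      have h4 : 0 ≤ u - node s h m := by linarith
      have h5 : u - node s h m ≤ h := by rw [node_succ] at hu; linarith
      have h6 : |(φ (node s h (m + 1)) - φ (node s h m)) / h * (u - node s h m)| ≤ K * h := by
        rw [abs_mul, abs_of_nonneg h4]
        exact mul_le_mul (coef_le hφ hh m) h5 h4 hK
      have h7 := hφ.abs (node s h m) u
      rw [Real.dist_eq, abs_sub_comm (node s h m) u, abs_of_nonneg h4] at h7
      have h8 : K * (u - node s h m) ≤ K * h := mul_le_mul_of_nonneg_left h5 hK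
      have e : φ (node s h m) - φ (node s h 0) + (φ (node s h (m + 1)) - φ (node s h m)) / h * (u - node s h m) -
          (φ u - φ (node s h 0)) = (φ (node s h m) - φ u) +
          (φ (node s h (m + 1)) - φ (node s h m)) / h * (u - node s h m) := by ring
      rw [e]
      refine (abs_add_le _ _).trans ?_
      linarith

/-- the sequence of the interpolations -/
noncomputable def polyn (φ : ℝ → ℝ) (n : ℕ) : ℝ → ℝ :=
  poly φ (-((n : ℝ) + 1)) (1 / ((n : ℝ) + 1)) (2 * (n + 1) ^ 2)

lemma polyn_near {φ : ℝ → ℝ} {K : ℝ} (hφ : LK K φ) (n : ℕ) {u : ℝ} (hu : |u| ≤ n) :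
    |polyn φ n u - (φ u - φ (-((n : ℝ) + 1)))| ≤ 2 * K * (1 / ((n : ℝ) + 1)) := by
  have hn : (0 : ℝ) < (n : ℝ) + 1 := by positivity
  have h0 : node (-((n : ℝ) + 1)) (1 / ((n : ℝ) + 1)) 0 = -((n : ℝ) + 1) := by unfold node; simp
  have h1 : node (-((n : ℝ) + 1)) (1 / ((n : ℝ) + 1)) (2 * (n + 1) ^ 2) = (n : ℝ) + 1 := by
    unfold node
    push_cast
    field_simp
    ring
  have hu' := abs_le.1 hu
  have := poly_near (s := -((n : ℝ) + 1)) (h := 1 / ((n : ℝ) + 1)) hφ (by positivity) (2 * (n + 1) ^ 2)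
    (u := u) (by rw [h0]; linarith [hu'.1]) (by rw [h1]; linarith [hu'.2])
  rw [h0] at this
  exact this

lemma polyn_tendsto {φ : ℝ → ℝ} {K : ℝ} (hφ : LK K φ) (u v : ℝ) :
    Tendsto (fun n => polyn φ n u - polyn φ n v) atTop (𝓝 (φ u - φ v)) := by
  rw [tendsto_iff_norm_sub_tendsto_zero]
  have e0 : Tendsto (fun n : ℕ => 4 * K * (1 / ((n : ℝ) + 1))) atTop (𝓝 (4 * K * 0)) :=
    tendsto_one_div_add_atTop_nhds_zero_nat.const_mul (4 * K)
  rw [mul_zero] at e0
  apply squeeze_zero_norm' _ e0
  obtain ⟨N, hN⟩ := exists_nat_ge (max |u| |v|)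
  filter_upwards [eventually_ge_atTop N] with n hn
  have hn' : (N : ℝ) ≤ n := by exact_mod_cast hn
  have h1 := polyn_near hφ n ((le_max_left _ _).trans (hN.trans hn'))
  have h2 := polyn_near hφ n ((le_max_right _ _).trans (hN.trans hn'))
  rw [norm_norm, Real.norm_eq_abs]
  have e3 : polyn φ n u - polyn φ n v - (φ u - φ v) = (polyn φ n u - (φ u - φ (-((n : ℝ) + 1)))) -
    (polyn φ n v - (φ v - φ (-((n : ℝ) + 1)))) := by ring
  rw [e3]
  have e4 := abs_sub (polyn φ n u - (φ u - φ (-((n : ℝ) + 1)))) (polyn φ n v - (φ v - φ (-((n : ℝ) + 1))))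
  linarith

namespace R1

variable {ι : Type*} [Fintype ι] [DecidableEq ι] {S : Rel (E1 ι)}

/-- the relation for all ridge functions -/
theorem ridge_all {i : ι} (D : Data S i) {κ c : ℝ} (hκ : κ ≠ 0) (h : ∀ᵐ u, D.B u = κ * u + c) {K : ℝ}
    {φ : ℝ → ℝ} (hφ : LK K φ) : S.R (fun y => φ (κ * y i + c)) (fun y => κ * φ (b S i y)) := by
  have hK := LK_nonneg hφ
  have hpoly : ∀ n, S.R (fun y => polyn φ n (κ * y i + c)) (fun y => κ * polyn φ n (b S i y)) := by
    intro n
    unfold polyn poly
    simp only [Finset.mul_sum]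
    apply sum _ (R_const 0 0)
    intro k _
    have h1 : S.R (fun y => clip (node (-((n : ℝ) + 1)) (1 / ((n : ℝ) + 1)) k)
        (node (-((n : ℝ) + 1)) (1 / ((n : ℝ) + 1)) (k + 1)) (κ * y i + c))
        (fun y => κ * clip (node (-((n : ℝ) + 1)) (1 / ((n : ℝ) + 1)) k)
        (node (-((n : ℝ) + 1)) (1 / ((n : ℝ) + 1)) (k + 1)) (b S i y)) := by
      unfold clip
      simp only [mul_sub]
      exact Rel.sub (hin_of_data D hκ h _) (hin_of_data D hκ h _)
    have h2 := Rel.smul h1 ((φ (node (-((n : ℝ) + 1)) (1 / ((n : ℝ) + 1)) (k + 1)) -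
      φ (node (-((n : ℝ) + 1)) (1 / ((n : ℝ) + 1)) k)) / (1 / ((n : ℝ) + 1)))
    refine S.congr h2 (fun _ _ => rfl) (fun x y => ?_)
    ring
  refine closed (K := K * |κ|) hpoly (fun n => ?_) (fun x y => ?_) (fun x y => ?_)
  · have h1 : LK |κ| (fun y : E1 ι => κ * y i + c) := by
      have := ((LK_coord i).const_mul κ).add_const c
      rwa [mul_one] at this
    exact Rel.LK.comp_real hK (LK_poly hφ (by positivity) _) h1
  · exact polyn_tendsto hφ _ _
  · have := (polyn_tendsto hφ (b S i x) (b S i y)).const_mul κ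
    simp only [mul_sub] at this
    exact this

end R1

end Pool.Agent.U299.LF
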