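import Mathlib
import Pool.Agent.Helper23K9.LR.Main
import Pool.Agent.U299.LF.Poly

set_option autoImplicit false

open MeasureTheory Set Filter Topology
open Pool.Agent.Helper23K9.LR

namespace Pool.Agent.U299.LF

section
variable {ι : Type*} [Fintype ι] [DecidableEq ι]

/-- the affine map `x ↦ κ x + c` -/
def aff (κ : ℝ) (c : ι → ℝ) (x : E1 ι) : E1 ι := WithLp.toLp 1 (fun i => κ * x i + c i)

omit [DecidableEq ι] in
lemma aff_apply (κ : ℝ) (c : ι → ℝ) (x : E1 ι) (i : ι) : (aff κ c x) i = κ * x i + c i := rfl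

omit [DecidableEq ι] in
lemma dist_aff (κ : ℝ) (c : ι → ℝ) (x y : E1 ι) : dist (aff κ c x) (aff κ c y) = |κ| * dist x y := by
  rw [dist_eq, dist_eq, Finset.mul_sum]
  apply Finset.sum_congr rfl
  intro i _
  rw [aff_apply, aff_apply, ← abs_mul]
  congr 1
  ring

omit [DecidableEq ι] in
lemma LK_aff {K : ℝ} {f : E1 ι → ℝ} (hf : LK K f) (κ : ℝ) (c : ι → ℝ) :
    LK (K * |κ|) (fun x => f (aff κ c x)) := fun x y => by
  have := hf (aff κ c x) (aff κ c y)
  rw [dist_aff, ← mul_assoc] at this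
  exact this

end

namespace R1

variable {ι : Type*} [Fintype ι] [DecidableEq ι] {S : Rel (E1 ι)} (D : ∀ i, Data S i)

theorem main_rel {κ : ℝ} {c : ι → ℝ} (hκ : κ ≠ 0) (hB : ∀ i, ∀ u ∈ (D i).D, (D i).B u = κ * u + c i)
    {K : ℝ} {f : E1 ι → ℝ} (hf : LK K f) :
    S.R (fun x => κ⁻¹ * f (aff κ c x)) (fun x => f (bE S x)) := by
  have hBae : ∀ i, ∀ᵐ u, (D i).B u = κ * u + c i := fun i => by
    filter_upwards [(D i).hD] with u hu
    exact hB i u hu
  obtain ⟨q, hq⟩ := S.surj _ ⟨_, LK_comp_bE S (abs_nonneg K) (hf.mono (le_abs_self K))⟩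
  set G : E1 ι → ℝ := fun x => q x - κ⁻¹ * f (aff κ c x) with hG
  have hGc : Continuous G := by
    obtain ⟨L, hL⟩ := S.lip hq
    exact hL.continuous.sub (((LK_aff hf κ c).continuous).const_mul _ |> fun h => by simpa using h)
  -- one coordinate
  have hone : ∀ (x : E1 ι) (k : ι) (t : ℝ), (∀ j, x j ∈ (D j).D) → t ∈ (D k).D → G (upd x k t) = G x := by
    intro x k t hx ht
    have hBv : Bv D x = aff κ c x := by
      ext j
      rw [Bv_apply, aff_apply, hB j _ (hx j)]
    have h1 : S.R (fun z => κ⁻¹ * f (upd (aff κ c x) k (κ * z k + c k)))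
        (fun z => f (upd (Bv D x) k (b S k z))) := by
      have h2 := ridge_all (D k) hκ (hBae k) (LK_upd hf (aff κ c x) k)
      have h3 := Rel.smul h2 κ⁻¹
      rw [hBv]
      refine S.congr h3 (fun _ _ => rfl) (fun y z => ?_)
      beta_reduce
      rw [← mul_assoc, ← mul_assoc, inv_mul_cancel₀ hκ, one_mul, one_mul]
    have h2 := along D hf hq (x := x) (y := upd x k t) k (fun j hj => (upd_ne _ hj _).symm)
      (fun j _ => hx j) (F := fun s => κ⁻¹ * f (upd (aff κ c x) k (κ * s + c k))) h1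
    rw [upd_same] at h2
    have e1 : upd (aff κ c x) k (κ * x k + c k) = aff κ c x := by
      have := upd_self (aff κ c x) k
      rwa [aff_apply] at this
    have e2 : upd (aff κ c x) k (κ * t + c k) = aff κ c (upd x k t) := by
      ext j
      by_cases h : j = k
      · subst h
        rw [upd_same, aff_apply, upd_same]
      · rw [upd_ne _ h, aff_apply, aff_apply, upd_ne _ h]
    rw [e1, e2] at h2
    rw [hG]
    simp only
    linarith
  -- all coordinates
  have hall : ∀ x y : E1 ι, (∀ j, x j ∈ (D j).D) → (∀ j, y j ∈ (D j).D) → G y = G x := by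
    intro x y hx hy
    have h1 : ∀ J : Finset ι, G (frz J y x) = G x := by
      intro J
      induction J using Finset.induction_on with
      | empty => rw [frz_empty]
      | insert a J ha ih =>
        rw [frz_insert, hone _ _ _ _ (hy a), ih]
        intro j
        rw [frz_apply]
        split_ifs
        · exact hy j
        · exact hx j
    have h2 := h1 Finset.univ
    rwa [frz_univ] at h2
  -- density
  have hne : ∀ k, ∃ t, t ∈ (D k).D := fun k => (D k).hD.exists
  choose t₀ ht₀ using hne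
  have hconst : ∀ x : E1 ι, G x = G (WithLp.toLp 1 t₀) := by
    have hd : Dense (Set.univ.pi (fun j => (D j).D)) := dense_pi _ (fun j _ => Measure.dense_of_ae (D j).hD)
    have hc : Continuous (fun y : ι → ℝ => G (WithLp.toLp 1 y)) := hGc.comp (PiLp.continuous_toLp 1 _)
    have h1 : (fun y : ι → ℝ => G (WithLp.toLp 1 y)) = fun _ => G (WithLp.toLp 1 t₀) := by
      apply Continuous.ext_on hd hc continuous_const
      intro y hy
      apply hall
      · intro j; exact ht₀ j
      · intro j; exact hy j (Set.mem_univ j)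
    intro x
    exact congrFun h1 x.ofLp
  refine S.congr hq (fun x y => ?_) (fun _ _ => rfl)
  have h1 : G x = G y := (hconst x).trans (hconst y).symm
  rw [hG] at h1
  simp only at h1
  linarith

end R1

section
variable {ι : Type*} [Fintype ι] [DecidableEq ι] [Nontrivial ι]

theorem exists_psi_l1 (T : FreeSpace (E1 ι) ≃ₗᵢ[ℝ] FreeSpace (E1 ι)) :
    ∃ (κ : ℝ) (Ψ : E1 ι → E1 ι), κ ≠ 0 ∧ ∀ p q, T (mol p q) = κ • mol (Ψ p) (Ψ q) := by
  set S := relOf T with hS
  have hD : ∀ i, Nonempty (R1.Data S i) := fun i => R1.exists_data S i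
  set D : ∀ i, R1.Data S i := fun i => Classical.choice (hD i) with hDdef
  obtain ⟨κ, hκ, c, hB⟩ := R1.exists_kappa D
  set Ψ : E1 ι → E1 ι := fun p => aff κ⁻¹ (fun i => - (κ⁻¹ * c i)) (R1.bE S p) with hΨ
  refine ⟨κ, Ψ, hκ, fun p q => ?_⟩
  rw [← sub_eq_zero]
  apply eq_zero_of_fn
  intro h K hK
  have h1 := R1.main_rel D hκ hB (LK_aff hK κ⁻¹ (fun i => - (κ⁻¹ * c i)))
  have e1 : ∀ x, aff κ⁻¹ (fun i => - (κ⁻¹ * c i)) (aff κ c x) = x := by
    intro x
    ext i
    rw [aff_apply, aff_apply]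
    field_simp
    ring
  simp only [e1] at h1
  have h2 : (fun x => h (aff κ⁻¹ (fun i => - (κ⁻¹ * c i)) (R1.bE S x))) = fun x => h (Ψ x) := rfl
  rw [h2] at h1
  obtain ⟨⟨K1, hK1⟩, ⟨K2, hK2⟩, h3⟩ := h1
  have h4 := h3 (mol p q)
  rw [fn_mol hK2] at h4
  have h5 : fn (fun x => κ⁻¹ * h x) (T (mol p q)) = κ⁻¹ * fn h (T (mol p q)) := by
    have := fn_lin hK hK κ⁻¹ 0 (T (mol p q))
    simpa using this
  rw [h5] at h4
  rw [map_sub, map_smul, fn_mol hK, h4, smul_eq_mul, ← mul_assoc, mul_inv_cancel₀ hκ, one_mul, sub_self]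

/-- `ℝ^ι` with the Manhattan distance is Lipschitz-free rigid if `ι` has at least two elements -/
theorem rigid_l1 : LipFreeRigid (E1 ι) := by
  apply rigid_of_psi
  · intro p
    obtain ⟨i⟩ : Nonempty ι := inferInstance
    refine ⟨upd p i (p i + 1), fun h => ?_⟩
    have := congrArg (fun z : E1 ι => z i) h
    simp only [upd_same] at this
    linarith
  · exact exists_psi_l1

end

end Pool.Agent.U299.LF
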